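import Pool.Agent.N184.HK.Stm3
import Pool.Agent.N184.HK.Stm2

/-!
# Project ND (helper62): the monodromy–weight conjecture near a degenerate fibre.
Definitions and the statements of the leaves (with sketches).
-/

set_option autoImplicit false

namespace Pool.Agent.L7h62.ND

open Module Pool.Agent.Y143 Pool.Agent.N184.HK

/-! ### Definitions of the main statement -/

section defs
variable {Ω V : Type} [Field Ω] [AddCommGroup V] [Module Ω V]

/-- The exponential of a nilpotent endomorphism. -/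
noncomputable def expo (Z : Module.End Ω V) : Module.End Ω V :=
  ∑ n ∈ Finset.range (finrank Ω V + 1), ((n.factorial : Ω)⁻¹) • Z ^ n

variable (Ω V) in
/-- The nearby cohomology `V` of a family over a `p`-adic field (with residue field of `q` elements)
at a point where `r` branches of the discriminant cross: a geometric Frobenius `Φ`, the logarithm `N`
of the monodromy of the field and the logarithms `S i` of the monodromies around the branches. -/
structure Family (q r : ℕ) where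
  Φ : Module.End Ω V
  N : Module.End Ω V
  S : Fin r → Module.End Ω V
  N_Φ : ∀ x, N (Φ x) = (q : Ω) • Φ (N x)
  S_Φ : ∀ i x, S i (Φ x) = (q : Ω) • Φ (S i x)
  N_S : ∀ i, Commute N (S i)
  S_S : ∀ i j, Commute (S i) (S j)

/-- The logarithm of the monodromy `∑ e i * S i` in the direction `e`. -/
def Family.Sd {q r : ℕ} (F : Family Ω V q r) (e : Fin r → Ω) : Module.End Ω V := ∑ i, e i • F.S i

/-- The Frobenius of the fibre whose Kummer classes take the values `x i`. -/
noncomputable def Family.frob {q r : ℕ} (F : Family Ω V q r) (x : Fin r → Ω) : Module.End Ω V :=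
  F.Φ * expo (F.Sd x)

/-- The logarithm of the monodromy of the fibre with valuations `e i`. -/
def Family.mono {q r : ℕ} (F : Family Ω V q r) (e : Fin r → Ω) : Module.End Ω V := F.N + F.Sd e

end defs

/-- Three consecutive terms `A → B → C` of the first page of the weight spectral sequence of the
degenerate fibre. -/
structure Row (Ω : Type) [Field Ω] (q : ℕ) where
  A : Type
  B : Type
  C : Type
  [gA : AddCommGroup A]
  [gB : AddCommGroup B]
  [gC : AddCommGroup C]
  [mA : Module Ω A]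
  [mB : Module Ω B]
  [mC : Module Ω C]
  [fA : FiniteDimensional Ω A]
  [fB : FiniteDimensional Ω B]
  [fC : FiniteDimensional Ω C]
  FA : Module.End Ω A
  NA : Module.End Ω A
  FB : Module.End Ω B
  NB : Module.End Ω B
  FC : Module.End Ω C
  NC : Module.End Ω C
  relA : ∀ x, NA (FA x) = (q : Ω) • FA (NA x)
  relB : ∀ x, NB (FB x) = (q : Ω) • FB (NB x)
  relC : ∀ x, NC (FC x) = (q : Ω) • FC (NC x)
  f : A →ₗ[Ω] B
  g : B →ₗ[Ω] C
  gf : ∀ x, g (f x) = 0
  f_F : ∀ x, f (FA x) = FB (f x)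
  f_N : ∀ x, f (NA x) = NB (f x)
  g_F : ∀ x, g (FB x) = FC (g x)
  g_N : ∀ x, g (NB x) = NC (g x)

attribute [instance] Row.gA Row.gB Row.gC Row.mA Row.mB Row.mC Row.fA Row.fB Row.fC

section rows
variable {Ω V : Type} [Field Ω] [AddCommGroup V] [Module Ω V] {q : ℕ}

/-- The three terms are mw pure of weight `w`. -/
def Row.Pure [CharZero Ω] (R : Row Ω q) (w : ℤ) : Prop :=
  IsMWPure q w R.FA R.NA ∧ IsMWPure q w R.FB R.NB ∧ IsMWPure q w R.FC R.NC

/-- The middle cohomology of the row is `U / U'`, compatibly with Frobenius and monodromy. -/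
def Row.Computes (R : Row Ω q) (Φ N : Module.End Ω V) (U' U : Submodule Ω V) : Prop :=
  ∃ θ : LinearMap.ker R.g →ₗ[Ω] V ⧸ U', LinearMap.range θ = U.map U'.mkQ ∧
    (∀ x, θ x = 0 ↔ (x : R.B) ∈ LinearMap.range R.f) ∧
    (∀ (x y : LinearMap.ker R.g) (v : V), (y : R.B) = R.FB x → θ x = U'.mkQ v →
      θ y = U'.mkQ (Φ v)) ∧
    (∀ (x y : LinearMap.ker R.g) (v : V), (y : R.B) = R.NB x → θ x = U'.mkQ v →
      θ y = U'.mkQ (N v))

end rows

/-! ### Auxiliary notions -/

section aux
variable {K V : Type} [Field K] [AddCommGroup V] [Module K V]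

/-- `D` is diagonalizable with integral eigenvalues. -/
def Gr (D : Module.End K V) : Prop := (⨆ j : ℤ, D.eigenspace (j : K)) = ⊤

/-- the filtration of a grading operator -/
def Fil (Y : Module.End K V) (k : ℤ) : Submodule K V := ⨆ i : Set.Iic k, Y.eigenspace ((i : ℤ) : K)

/-- `T` has degree `d` for `Y` -/
def Deg (Y T : Module.End K V) (d : ℤ) : Prop := Y * T - T * Y = (d : K) • T

/-- hard Lefschetz -/
def HL (D T : Module.End K V) : Prop := ∀ j : ℕ,
  Set.BijOn (⇑(T ^ j)) (D.eigenspace (j : K) : Set V) (D.eigenspace (-(j : K)) : Set V)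

/-- `T` is the sum of the `c s`, `s < n`, of degree `- (d + s)` -/
def Dec (Y T : Module.End K V) (d : ℤ) (n : ℕ) (c : ℕ → Module.End K V) : Prop :=
  T = ∑ s ∈ Finset.range n, c s ∧ (∀ s, Deg Y (c s) (-(d + s))) ∧ ∀ s, n ≤ s → c s = 0

/-- hard Lefschetz for `N` on the quotient `Fil k / Fil (k - 1)` -/
def GrL (D Y N : Module.End K V) : Prop := ∀ (k : ℤ) (b : ℕ),
  (∀ x ∈ Fil Y k, x ∈ D.eigenspace ((k + b : ℤ) : K) → (N ^ b) x ∈ Fil Y (k - 1) →
    x ∈ Fil Y (k - 1)) ∧
  (∀ y ∈ Fil Y k, y ∈ D.eigenspace ((k - b : ℤ) : K) →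
    ∃ x ∈ Fil Y k, x ∈ D.eigenspace ((k + b : ℤ) : K) ∧ y - (N ^ b) x ∈ Fil Y (k - 1))

end aux

section lef
variable {Ω V : Type} [Field Ω] [CharZero Ω] [AddCommGroup V] [Module Ω V] {q : ℕ}

/-- hard Lefschetz for the middle cohomology of a row -/
def Row.Lef (R : Row Ω q) (w : ℤ) : Prop := ∀ b : ℕ,
  (∀ x ∈ WS q R.FB (w + b), R.g x = 0 → (R.NB ^ b) x ∈ LinearMap.range R.f →
    x ∈ LinearMap.range R.f) ∧
  (∀ y ∈ WS q R.FB (w - b), R.g y = 0 → ∃ x ∈ WS q R.FB (w + b), R.g x = 0 ∧ (R.NB ^ b) x = y)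

/-- hard Lefschetz for `U / U'` -/
def GrLef (q : ℕ) (w : ℤ) (Φ N : Module.End Ω V) (U' U : Submodule Ω V) : Prop := ∀ b : ℕ,
  (∀ x ∈ U, x ∈ WS q Φ (w + b) → (N ^ b) x ∈ U' → x ∈ U') ∧
  (∀ y ∈ U, y ∈ WS q Φ (w - b) → ∃ x ∈ U, x ∈ WS q Φ (w + b) ∧ y - (N ^ b) x ∈ U')

end lef

/-! ### Leaves -/

/-- EXA. The middle cohomology of a complex of mw pure modules of the same weight.
Sketch: `t_frm` (P_FRM) gives `N ^ b : WS (w + b) ≅ WS (w - b)` for `A`, `B`, `C` (its hypothesis on the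
roots of the characteristic polynomial follows from mw purity: an eigenvector `x` of `Φ` is in
`M a`, not in `M (a - 1)` for some `a`). `f` and `g` map `WS` to `WS`
(`P_FRM.decomp`, `ES_le`: `Φ.maxGenEigenspace e` is mapped to the same for the target), and an element
of `range f` in `WS` is the image of an element of `WS` (decompose the preimage; the part outside
`WS` goes to `WS ⊓ (complement) = 0`, `P_FRM.ES_disjoint`).
(1) `N ^ b x = f a`, wlog `a ∈ WS (w - b)`, `a = N ^ b a'`, `a' ∈ WS (w + b)`, so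
`N ^ b (x - f a') = 0`, `x = f a'`. (2) `y = N ^ b x`; `N ^ b (g x) = g y = 0`, so `g x = 0`. -/
def S_EXA : Prop := ∀ (Ω : Type) [Field Ω] [CharZero Ω] [IsAlgClosed Ω] (q : ℕ), 1 < q →
    ∀ (w : ℤ) (R : Row Ω q), R.Pure w → R.Lef w

/-- CMP. From the row to the graded piece `U / U'`.
Sketch: `θ` maps `ker g ∩ WS` to the `WS` of `V ⧸ U'`, and elements of the range of `θ` in `WS` (or with
a representative in `WS q Φ`) are images of elements of `ker g ∩ WS` (`P_FRM.decomp` with
`p = ker g`, and `ES_disjoint` in `V ⧸ U'` with `U'.mapQ U' Φ _`; `U'` is stable under `Φ` and `N`: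
apply the third and fourth property of `Computes` with `x = y = 0` and `v ∈ U'`).
(1) `x ∈ U ∩ WS`, `N ^ b x ∈ U'`: `mkQ x = θ β`, `β ∈ ker g ∩ WS`, `θ (N ^ b β) = mkQ (N ^ b x) = 0`, so
`N ^ b β ∈ range f`, `β ∈ range f`, `mkQ x = 0`. (2) `mkQ y = θ β = θ (N ^ b α) = N ^ b (θ α)`,
`θ α = mkQ x`, `x ∈ U`, and the part of `x` in `WS` (`decomp` with `p = U`) has the same image. -/
def S_CMP : Prop := ∀ (Ω V : Type) [Field Ω] [CharZero Ω] [IsAlgClosed Ω] [AddCommGroup V]
    [Module Ω V] [FiniteDimensional Ω V] (q : ℕ), 1 < q → ∀ (w : ℤ) (Φ N : Module.End Ω V)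
    (U' U : Submodule Ω V) (R : Row Ω q), U' ≤ U → (∀ x ∈ U, Φ x ∈ U) →
    R.Computes Φ N U' U → R.Lef w → GrLef q w Φ N U' U

/-- DOP. The operator weight minus `m`.
Sketch: `D := fop Φ (fun e => (j : Ω))` for `e` of weight `m + j`, and `1 / 2` if `e` is not a Weil number
(`P_FRM.weight_unique`). `t_fope` gives the eigenspaces and the first claim; the third is
`P_FRM.N_eig`, `weil_down`, `ext_gen` (on `maxGenEigenspace e = 0` if `e` is not an eigenvalue);
the fourth: `Submodule.eq_iSup_inf_genEigenspace` as in `P_FRM.decomp`. -/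
def S_DOP : Prop := ∀ (Ω V : Type) [Field Ω] [CharZero Ω] [IsAlgClosed Ω] [AddCommGroup V]
    [Module Ω V] [FiniteDimensional Ω V] (q : ℕ), 1 < q → ∀ (m : ℤ) (Φ : Module.End Ω V),
    (∀ α, Φ.HasEigenvalue α → ∃ w : ℤ, IsWeilNumber q w α) →
    ∃ D : Module.End Ω V, Gr D ∧ (∀ j : ℤ, D.eigenspace (j : Ω) = WS q Φ (m + j)) ∧
      (∀ T : Module.End Ω V, (∀ x, T (Φ x) = (q : Ω) • Φ (T x)) → Deg D T (-2)) ∧
      (∀ U : Submodule Ω V, (∀ x ∈ U, Φ x ∈ U) → ∀ x ∈ U, D x ∈ U)

/-- GRD. A grading operator for the filtration which commutes with `D`.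
Sketch: `D` is semisimple, so every `D`-stable subspace has a `D`-stable complement, i.e. there is a
projection `r k` onto `W k` with `Commute (r k) D`. Put `p b = 1` (where `W b = ⊤`) and
`p (k - 1) = r (k - 1) * p k`; then `p k` is a projection onto `W k` commuting with `D` and
`p (k - 1) * p k = p (k - 1) = p k * p (k - 1)`. Put `Y = ∑ k • (p k - p (k - 1))` over `a < k ≤ b`. (Or
induction on the length of the filtration, or a `D`-stable complement of `W (k - 1)` in `W k`.) -/
def S_GRD : Prop := ∀ (K V : Type) [Field K] [CharZero K] [AddCommGroup V]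
    [Module K V] [FiniteDimensional K V] (D : Module.End K V), Gr D → ∀ W : ℤ → Submodule K V,
    Monotone W → (∃ a, W a = ⊥) → (∃ a, W a = ⊤) → (∀ k, ∀ x ∈ W k, D x ∈ W k) →
    ∃ Y : Module.End K V, Gr Y ∧ Commute Y D ∧ ∀ k, W k = Fil Y k

/-- DEC. The homogeneous components of an operator which shifts the filtration by `d`.
Sketch: `P_SL2A.eig_basis` gives a basis `b i` with `Y (b i) = w i • b i` and the projections
`pj k = P_SL2A.pj b w k` (`pj_eig`, `pj_mem`, `pj_b`).
`c s = ∑ k, pj (k - d - s) * T * pj k`, the sum over the finitely many values `k` of `w`, and `n` large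
(then `c s = 0` for `s ≥ n`). Uniqueness/commutation: `D` commutes with every `pj k`
(`D` preserves the eigenspaces of `Y`). -/
def S_DEC : Prop := ∀ (K V : Type) [Field K] [CharZero K] [AddCommGroup V]
    [Module K V] [FiniteDimensional K V] (Y T : Module.End K V) (d : ℤ), Gr Y →
    (∀ k, ∀ x ∈ Fil Y k, T x ∈ Fil Y (k - d)) →
    ∃ (n : ℕ) (c : ℕ → Module.End K V), Dec Y T d n c ∧
      ∀ (D : Module.End K V) (t : ℤ), Commute D Y → Deg D T t → ∀ s, Deg D (c s) t

/-- COM. The leading components of commuting operators commute.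
Sketch: for `x` in the eigenspace `k` of `Y`, the component of `S (N x) - N (S x) = 0` of degree
`k - d - d'` is `c 0 (c' 0 x) - c' 0 (c 0 x)`; the other terms are in `Fil Y (k - d - d' - 1)`. -/
def S_COM : Prop := ∀ (K V : Type) [Field K] [CharZero K] [AddCommGroup V]
    [Module K V] [FiniteDimensional K V] (Y S N : Module.End K V) (d d' : ℤ) (n n' : ℕ)
    (c c' : ℕ → Module.End K V), Gr Y → Dec Y S d n c → Dec Y N d' n' c' → Commute S N →
    Commute (c 0) (c' 0)

/-- HLS. From the monodromy filtration to hard Lefschetz for the leading part.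
Sketch: `S ^ a x - (c 0) ^ a x ∈ Fil Y (k - 2 a - 1)` for `x ∈ Fil Y k`.
Injective: `x` of degree `a`, `(c 0) ^ a x = 0`, so `S ^ a x ∈ Fil (-a - 1)`, `x ∈ Fil (a - 1)`, `x = 0`.
Surjective: `y` of degree `-a`: `y - S ^ a x ∈ Fil (-a - 1)`, `x = x_a + x'`, `x' ∈ Fil (a - 1)`,
so `y - (c 0) ^ a x_a ∈ Fil (-a - 1)` has degree `-a`, so it is `0`. -/
def S_HLS : Prop := ∀ (K V : Type) [Field K] [CharZero K] [AddCommGroup V]
    [Module K V] [FiniteDimensional K V] (Y S : Module.End K V) (n : ℕ) (c : ℕ → Module.End K V),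
    Gr Y → Dec Y S 2 n c → IsMonodromyFiltration S (Fil Y) → HL Y (c 0)

/-- HLN. The same for `N` and the grading `D - Y`.
Sketch: the eigenspace `b` of `D - Y` is the sum over `k` of the intersections of the eigenspace `k` of
`Y` and `k + b` of `D` (commuting diagonalizable operators), and `c 0` preserves the degree `k` for `Y`
and lowers the degree for `D` by two. On each of them as in `S_HLS`, with `GrL`. -/
def S_HLN : Prop := ∀ (K V : Type) [Field K] [CharZero K] [AddCommGroup V]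
    [Module K V] [FiniteDimensional K V] (D Y N : Module.End K V) (n : ℕ)
    (c : ℕ → Module.End K V), Gr D → Gr Y → Commute Y D → Dec Y N 0 n c →
    (∀ s, Deg D (c s) (-2)) → GrL D Y N → HL (D - Y) (c 0)

/-- GRS. -/
def S_GRS : Prop := ∀ (K V : Type) [Field K] [CharZero K] [AddCommGroup V]
    [Module K V] [FiniteDimensional K V] (D Y : Module.End K V), Gr D → Gr Y → Commute Y D →
    Gr (D - Y)

/-- KER. Sketch: downward induction on `j ≥ 0` (zero for large `j`): for `x` of degree `j`,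
`T ^ (j + 2) x = T ^ (j + 4) y` with `y` of degree `j + 4`, so
`T ^ (j + 2) (Z x) = T ^ (j + 4) (Z y) = 0`, `Z x = 0`. For `x` of degree `- a < 0`: `x = T ^ a y`, `y`
of degree `a`, `Z x = T ^ a (Z y) = 0`. -/
def S_KER : Prop := ∀ (K V : Type) [Field K] [CharZero K] [AddCommGroup V]
    [Module K V] [FiniteDimensional K V] (E T Z : Module.End K V), Gr E → Deg E T (-2) →
    HL E T → Deg E Z 2 → Commute Z T → Z = 0

/-- SUM. Sketch: `P_SL2A.exists_X` (with `eig_basis`) for `(Y, S)` and for `(D - Y, N)` gives `X₁`, `X₂` with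
`[Y, X₁] = 2 X₁`, `[X₁, S] = Y`, `[D - Y, X₂] = 2 X₂`, `[X₂, N] = D - Y`. By `S_KER`, each of
`[D - Y, X₁]`, `[X₁, N]` (for `(Y, S)`), `[Y, X₂]`, `[X₂, S]` (for `(D - Y, N)`) vanishes (it commutes with
`S` resp. `N` and has degree two, by the Jacobi identity). So `X₁ + X₂`, `D`, `S + N` satisfy the
relations of `t_sl2b`; `maxGenEigenspace = eigenspace` for `D` (`Gr D`). -/
def S_SUM : Prop := ∀ (K V : Type) [Field K] [CharZero K] [IsAlgClosed K] [AddCommGroup V]
    [Module K V] [FiniteDimensional K V] (D Y S N : Module.End K V), Gr D → Gr Y → Commute Y D →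
    Deg Y S (-2) → Deg Y N 0 → Deg D S (-2) → Deg D N (-2) → Commute S N →
    HL Y S → HL (D - Y) N → HL D (S + N)

/-- CNJ. Sketch: `u = ζ ^ (- Y)`: `u (b i) = ζ ^ (- w i) • b i` for a basis of eigenvectors. -/
def S_CNJ : Prop := ∀ (K V : Type) [Field K] [CharZero K] [AddCommGroup V]
    [Module K V] [FiniteDimensional K V] (Y : Module.End K V), Gr Y → ∀ ζ : K, ζ ≠ 0 →
    ∃ u v : Module.End K V, u * v = 1 ∧ v * u = 1 ∧ (∀ D, Commute D Y → Commute D u) ∧
      ∀ (T : Module.End K V) (s : ℤ), Deg Y T (-s) → u * T = ζ ^ s • (T * u)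

/-- POL. Sketch: matrices in a basis of `V`; `E j → V` the inclusion, `pr j : V → F j` a projection;
if `finrank (E j) ≠ finrank (F j)` for some `j ∈ J`, take `P = 0`; otherwise `P` is the product over `J`
of the determinants of `(pr j) * M ^ j * (inclusion j)` over `MvPolynomial (Fin r) K`, where
`M = N + ∑ X i * S i` has entries of total degree `≤ 1`. -/
def S_POL : Prop := ∀ (K V : Type) [Field K] [AddCommGroup V]
    [Module K V] [FiniteDimensional K V] (r : ℕ) (N : Module.End K V) (S : Fin r → Module.End K V)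
    (J : Finset ℕ) (E F : ℕ → Submodule K V),
    (∀ j ∈ J, ∀ e : Fin r → K, ∀ x ∈ E j, ((N + ∑ i, e i • S i) ^ j) x ∈ F j) →
    ∃ P : MvPolynomial (Fin r) K, P.totalDegree ≤ ∑ j ∈ J, j * finrank K (E j) ∧
      ∀ e : Fin r → K, (MvPolynomial.eval e P ≠ 0 ↔
        ∀ j ∈ J, Set.BijOn (⇑((N + ∑ i, e i • S i) ^ j)) (E j : Set V) (F j : Set V))

/-- RAY. Sketch: `MvPolynomial.aeval (fun i => C (y i) * X) P` has degree at most `P.totalDegree`. -/
def S_RAY : Prop := ∀ (K : Type) [Field K] (r : ℕ) (P : MvPolynomial (Fin r) K) (y : Fin r → K),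
    (∃ z : K, MvPolynomial.eval (z • y) P ≠ 0) →
    {z : K | MvPolynomial.eval (z • y) P = 0}.Finite ∧
      {z : K | MvPolynomial.eval (z • y) P = 0}.ncard ≤ P.totalDegree

/-- SCA. Sketch: put `R ζ = ∑ s, ζ ^ s • (c s + c' s)`, so `R 0 = c 0 + c' 0`. With `u = ζ ^ (- Y)` from
`S_CNJ`, `u * (N + (ζ⁻¹) ^ 2 • S) = R ζ * u` for `ζ ≠ 0`, and `u` commutes with `D`; so `HL D (R ζ)`
implies `HL D (N + (ζ⁻¹) ^ 2 • S)`. `S_POL` for the family `(c 0 + c' 0) + ∑ e i • (c (i+1) + c' (i+1))`,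
`E j`, `F j` the eigenspaces `j`, `-j` of `D`, `J` the range up to the largest eigenvalue, gives
`P` with `P(0) ≠ 0`; `P(ζ, ζ ^ 2, …)` is a polynomial in `ζ`, not zero at `0`, so it has a nonroot
`ζ ≠ 0`. -/
def S_SCA : Prop := ∀ (K V : Type) [Field K] [CharZero K] [AddCommGroup V]
    [Module K V] [FiniteDimensional K V] (D Y S N : Module.End K V) (n n' : ℕ)
    (c c' : ℕ → Module.End K V), Gr D → Gr Y → Commute Y D → Dec Y S 2 n c → Dec Y N 0 n' c' →
    (∀ s, Deg D (c s) (-2)) → (∀ s, Deg D (c' s) (-2)) → HL D (c 0 + c' 0) →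
    ∃ z : K, z ≠ 0 ∧ HL D (N + z ^ 2 • S)

/-- DGB. Sketch: the dimensions of the eigenspaces `j` and `-j` agree, the eigenspaces are
independent, so `2 * ∑_{1 ≤ j ≤ c} finrank ≤ finrank V`. -/
def S_DGB : Prop := ∀ (K V : Type) [Field K] [CharZero K] [AddCommGroup V]
    [Module K V] [FiniteDimensional K V] (D T : Module.End K V) (c : ℕ), HL D T →
    2 * ∑ j ∈ Finset.Icc 1 c, j * finrank K (D.eigenspace (j : K)) ≤ c * finrank K V

/-- EXP. Sketch: `u = expo (t • Z)` with `t = 1 / (q - 1)` is invertible (inverse `expo (- t • Z)`),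
commutes with `N`, and `u * Φ = Φ * expo ((t * q) • Z) = Φ * expo Z * u`
(`Z * Φ = q • Φ * Z`). So `u` is an isomorphism from `(Φ, N)` to `(Φ * expo Z, N)`. Multiplicativity:
`IsNilpotent.exp_add_of_commute`, or directly for multiples of `Z`. -/
def S_EXP : Prop := ∀ (Ω V : Type) [Field Ω] [CharZero Ω] [AddCommGroup V]
    [Module Ω V] [FiniteDimensional Ω V] (q : ℕ), 1 < q → ∀ (m : ℤ) (Φ Z N : Module.End Ω V),
    (∀ x, Z (Φ x) = (q : Ω) • Φ (Z x)) → Commute Z N → Z ^ (finrank Ω V) = 0 →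
    (IsMWPure q m (Φ * expo Z) N ↔ IsMWPure q m Φ N)

/-- NIL. Sketch: `Z` lowers the degree for `D` by two, so it is nilpotent. -/
def S_NIL : Prop := ∀ (K V : Type) [Field K] [CharZero K] [AddCommGroup V]
    [Module K V] [FiniteDimensional K V] (D Z : Module.End K V), Gr D → Deg D Z (-2) →
    Z ^ (finrank K V) = 0

end Pool.Agent.L7h62.ND
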