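import Pool.Agent.L7h62.ND.Exa

set_option autoImplicit false
set_option linter.unusedSectionVars false

namespace Pool.Agent.L7h62.ND

open Module Module.End Pool.Agent.Y143 Pool.Agent.N184.HK Pool.Agent.N184.HK.P_FRM

open P_EXA in
theorem t_CMP : S_CMP := by
  intro Ω V _ _ _ _ _ _ q hq w Φ N U' U R hU hΦU hR hL
  obtain ⟨θ, hrange, hker, hF, hN⟩ := hR
  -- `U'` is stable
  have hΦ' : ∀ x ∈ U', Φ x ∈ U' := by
    intro x hx
    have h1 := hF 0 0 x (by simp) (by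
      rw [map_zero, Submodule.mkQ_apply, eq_comm, Submodule.Quotient.mk_eq_zero]
      exact hx)
    rw [map_zero, Submodule.mkQ_apply, eq_comm, Submodule.Quotient.mk_eq_zero] at h1
    exact h1
  obtain ⟨G, hG⟩ : ∃ G : Module.End Ω (V ⧸ U'), ∀ x, G (U'.mkQ x) = U'.mkQ (Φ x) :=
    ⟨U'.mapQ U' Φ (fun x hx => hΦ' x hx), fun x => by simp⟩
  -- the kernel of `g` is stable
  have hst : ∀ x ∈ LinearMap.ker R.g, R.FB x ∈ LinearMap.ker R.g := by
    intro x hx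
    rw [LinearMap.mem_ker] at hx ⊢
    rw [R.g_F, hx, map_zero]
  have hstN : ∀ x ∈ LinearMap.ker R.g, R.NB x ∈ LinearMap.ker R.g := by
    intro x hx
    rw [LinearMap.mem_ker] at hx ⊢
    rw [R.g_N, hx, map_zero]
  obtain ⟨FP, hFP⟩ : ∃ FP : Module.End Ω (LinearMap.ker R.g), ∀ x, (FP x : R.B) = R.FB x :=
    ⟨R.FB.restrict hst, fun x => rfl⟩
  obtain ⟨NP, hNP⟩ : ∃ NP : Module.End Ω (LinearMap.ker R.g), ∀ x, (NP x : R.B) = R.NB x :=
    ⟨R.NB.restrict hstN, fun x => rfl⟩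
  have hθF : ∀ x, θ (FP x) = G (θ x) := by
    intro x
    obtain ⟨v, hv⟩ := U'.mkQ_surjective (θ x)
    rw [hF x (FP x) v (hFP x) hv.symm, ← hv, hG]
  have hθN : ∀ (n : ℕ) (x : LinearMap.ker R.g) (v : V), θ x = U'.mkQ v →
      θ ((NP ^ n) x) = U'.mkQ ((N ^ n) v) := by
    intro n
    induction n with
    | zero => intro x v h; simpa using h
    | succ n ih =>
      intro x v h
      rw [pow_succ, pow_succ, Module.End.mul_apply, Module.End.mul_apply]
      exact ih _ _ (hN x (NP x) v (hNP x) h)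
  have hval : ∀ (n : ℕ) (x : LinearMap.ker R.g), (((NP ^ n) x : LinearMap.ker R.g) : R.B) =
      (R.NB ^ n) (x : R.B) := fun n x =>
    pow_int (F := NP) (G := R.NB) (L := (LinearMap.ker R.g).subtype) hNP n x
  have hsub : ∀ (T : Set Ω) (x : LinearMap.ker R.g), x ∈ ES FP T → (x : R.B) ∈ ES R.FB T :=
    fun T x hx => map_ES (F := FP) (G := R.FB) (L := (LinearMap.ker R.g).subtype) hFP T hx
  have hsub' : ∀ (T : Set Ω) (x : LinearMap.ker R.g), (x : R.B) ∈ ES R.FB T → x ∈ ES FP T := by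
    intro T x hx
    obtain ⟨y, _, hy, hyx⟩ := lift_ES (F := FP) (G := R.FB) (L := (LinearMap.ker R.g).subtype) hFP T
      ⊤ (fun _ _ => Submodule.mem_top) (Submodule.mem_top (x := x)) hx
    have : y = x := Subtype.ext hyx
    rwa [← this]
  intro b
  obtain ⟨h1, h2⟩ := hL b
  have hmk : ∀ {x : V}, U'.mkQ x = 0 → x ∈ U' := fun {x} h => by
    rwa [Submodule.mkQ_apply, Submodule.Quotient.mk_eq_zero] at h
  have hmk' : ∀ {x : V}, x ∈ U' → U'.mkQ x = 0 := fun {x} h => by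
    rwa [Submodule.mkQ_apply, Submodule.Quotient.mk_eq_zero]
  -- elements of `U` in a part come from the same part of `ker g`
  have lift : ∀ (T : Set Ω) (x : V), x ∈ U → x ∈ ES Φ T → ∃ β : LinearMap.ker R.g,
      β ∈ ES FP T ∧ θ β = U'.mkQ x := by
    intro T x hx hxT
    have h3 : U'.mkQ x ∈ LinearMap.range θ := by
      rw [hrange]
      exact Submodule.mem_map_of_mem hx
    obtain ⟨β, hβ⟩ := h3
    have h4 : U'.mkQ x ∈ ES G T := map_ES (F := Φ) (G := G) (L := U'.mkQ)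
      (fun x => (hG x).symm) T hxT
    obtain ⟨β', _, hβ', hββ⟩ := lift_ES (F := FP) (G := G) (L := θ) hθF T ⊤
      (fun _ _ => Submodule.mem_top) (Submodule.mem_top (x := β)) (by rw [hβ]; exact h4)
    exact ⟨β', hβ', by rw [hββ, hβ]⟩
  refine ⟨?_, ?_⟩
  · intro x hx hxw hNx
    obtain ⟨β, hβ, hβx⟩ := lift (WW Ω q (w + b)) x hx hxw
    have h5 : θ ((NP ^ b) β) = 0 := by
      rw [hθN b β x hβx]
      exact hmk' hNx
    have h6 := (hker _).1 h5
    rw [hval] at h6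
    have h7 := h1 β (hsub _ β hβ) β.2 h6
    have h8 := (hker β).2 h7
    rw [hβx] at h8
    exact hmk h8
  · intro y hy hyw
    obtain ⟨β, hβ, hβy⟩ := lift (WW Ω q (w - b)) y hy hyw
    obtain ⟨α, hα, hgα, hNα⟩ := h2 β (hsub _ β hβ) β.2
    obtain ⟨x₀, hx₀⟩ := U'.mkQ_surjective (θ ⟨α, hgα⟩)
    have h9 : θ ⟨α, hgα⟩ ∈ U.map U'.mkQ := by
      rw [← hrange]
      exact ⟨_, rfl⟩
    obtain ⟨x, hx, hxθ⟩ := h9
    have h10 : θ ⟨α, hgα⟩ ∈ ES G (WW Ω q (w + b)) := map_ES hθF _ (hsub' _ ⟨α, hgα⟩ hα)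
    obtain ⟨x', hx', hxw', hxx⟩ := lift_ES (F := Φ) (G := G) (L := U'.mkQ)
      (fun x => (hG x).symm) (WW Ω q (w + b)) U hΦU hx (by rw [hxθ]; exact h10)
    refine ⟨x', hx', hxw', ?_⟩
    apply hmk
    rw [map_sub, ← hθN b ⟨α, hgα⟩ x' (by rw [hxx, hxθ])]
    have h11 : (NP ^ b) ⟨α, hgα⟩ = β := by
      apply Subtype.ext
      rw [hval]
      exact hNα
    rw [h11, hβy, sub_self]

end Pool.Agent.L7h62.ND
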