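import Pool.Agent.L7h62.ND.Grs
import Pool.Agent.N184.HK.P_SL2A

set_option autoImplicit false
set_option linter.unusedSectionVars false

namespace Pool.Agent.L7h62.ND

open Module Module.End

namespace P_DEC

open P_KER

variable {K V : Type} [Field K] [CharZero K] [AddCommGroup V] [Module K V]
  [FiniteDimensional K V]

/-- the projections to the eigenspaces of a grading operator -/
structure Pr (Y : Module.End K V) (pr : ℤ → Module.End K V) : Prop where
  eig : ∀ (k l : ℤ) (x : V), x ∈ Y.eigenspace (l : K) → pr k x = if l = k then x else 0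
  mem : ∀ (k : ℤ) (x : V), pr k x ∈ Y.eigenspace (k : K)

theorem exists_pr {Y : Module.End K V} (hY : Gr Y) : ∃ pr, Pr Y pr := by
  obtain ⟨ι, _, b, w, hb⟩ := Pool.Agent.N184.HK.P_SL2A.eig_basis Y hY
  refine ⟨Pool.Agent.N184.HK.P_SL2A.pj b w, fun k l x hx => ?_, fun k x => ?_⟩
  · exact Pool.Agent.N184.HK.P_SL2A.pj_eig hb (mem_eigenspace_iff.1 hx) k
  · exact mem_eigenspace_iff.2 (Pool.Agent.N184.HK.P_SL2A.pj_mem hb k x)

theorem mem_Fil {Y : Module.End K V} {k j : ℤ} (h : j ≤ k) {x : V}
    (hx : x ∈ Y.eigenspace (j : K)) : x ∈ Fil Y k :=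
  (le_iSup (fun i : Set.Iic k => Y.eigenspace ((i : ℤ) : K)) ⟨j, h⟩) hx

theorem Fil_le {Y : Module.End K V} {k : ℤ} {p : Submodule K V}
    (h : ∀ j ≤ k, ∀ x ∈ Y.eigenspace (j : K), x ∈ p) : Fil Y k ≤ p :=
  iSup_le fun i x hx => h i.1 i.2 x hx

theorem Fil_mono (Y : Module.End K V) {k l : ℤ} (h : k ≤ l) : Fil Y k ≤ Fil Y l :=
  Fil_le fun _ hj _ hx => mem_Fil (hj.trans h) hx

variable {Y : Module.End K V} {pr : ℤ → Module.End K V}

theorem Pr.self (h : Pr Y pr) {k : ℤ} {x : V} (hx : x ∈ Y.eigenspace (k : K)) : pr k x = x := by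
  rw [h.eig k k x hx, if_pos rfl]

theorem Pr.fil_zero (h : Pr Y pr) {k l : ℤ} (hl : l < k) {x : V} (hx : x ∈ Fil Y l) :
    pr k x = 0 := by
  have h1 : Fil Y l ≤ LinearMap.ker (pr k) := Fil_le fun j hj x hx => by
    rw [LinearMap.mem_ker, h.eig k j x hx, if_neg (by omega)]
  exact h1 hx

theorem Pr.eq_zero (h : Pr Y pr) {k l : ℤ} (hl : l < k) {x : V} (hx : x ∈ Fil Y l)
    (hk : x ∈ Y.eigenspace (k : K)) : x = 0 := by
  rw [← h.self hk, h.fil_zero hl hx]

theorem Pr.sub_mem (h : Pr Y pr) {k : ℤ} {x : V} (hx : x ∈ Fil Y k) :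
    x - pr k x ∈ Fil Y (k - 1) := by
  have h1 : Fil Y k ≤ (Fil Y (k - 1)).comap (1 - pr k) := Fil_le fun j hj x hx => by
    rw [Submodule.mem_comap, LinearMap.sub_apply, Module.End.one_apply, h.eig k j x hx]
    by_cases hjk : j = k
    · rw [if_pos hjk, sub_self]
      exact zero_mem _
    · rw [if_neg hjk, sub_zero]
      exact mem_Fil (by omega) hx
  exact h1 hx

theorem Pr.ext (h : Pr Y pr) (hY : Gr Y) {x : V} (hx : ∀ k, pr k x = 0) : x = 0 := by
  obtain ⟨B, hB⟩ := exists_bound Y
  -- the sum of the projections is the identity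
  have h1 : (∑ k ∈ Finset.Icc (-(B : ℤ)) B, pr k) - 1 = 0 := by
    refine gr_ext hY fun j x hx => ?_
    rw [LinearMap.sub_apply, Module.End.one_apply, LinearMap.sum_apply]
    by_cases hj : (B : ℤ) < |j|
    · rw [hB j hj, Submodule.mem_bot] at hx
      simp [hx]
    · rw [Finset.sum_congr rfl fun k _ => h.eig k j x hx, Finset.sum_ite_eq, if_pos, sub_self]
      push Not at hj
      rw [abs_le] at hj
      exact Finset.mem_Icc.2 hj
  have h2 := congrArg (fun A : Module.End K V => A x) h1
  simp only [LinearMap.sub_apply, Module.End.one_apply, LinearMap.sum_apply, hx,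
    Finset.sum_const_zero, zero_sub, LinearMap.zero_apply, neg_eq_zero] at h2
  exact h2

theorem Pr.sum (h : Pr Y pr) (hY : Gr Y) {B : ℕ}
    (hB : ∀ j : ℤ, (B : ℤ) < |j| → Y.eigenspace (j : K) = ⊥) (x : V) :
    ∑ k ∈ Finset.Icc (-(B : ℤ)) B, pr k x = x := by
  have h1 : (∑ k ∈ Finset.Icc (-(B : ℤ)) B, pr k) - 1 = 0 := by
    refine gr_ext hY fun j x hx => ?_
    rw [LinearMap.sub_apply, Module.End.one_apply, LinearMap.sum_apply]
    by_cases hj : (B : ℤ) < |j|
    · rw [hB j hj, Submodule.mem_bot] at hx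
      simp [hx]
    · rw [Finset.sum_congr rfl fun k _ => h.eig k j x hx, Finset.sum_ite_eq, if_pos, sub_self]
      push Not at hj
      rw [abs_le] at hj
      exact Finset.mem_Icc.2 hj
  have h2 := congrArg (fun A : Module.End K V => A x) h1
  simp only [LinearMap.sub_apply, Module.End.one_apply, LinearMap.sum_apply,
    LinearMap.zero_apply] at h2
  exact sub_eq_zero.1 h2

theorem Pr.comm (h : Pr Y pr) (hY : Gr Y) {D : Module.End K V} (hD : Commute D Y) (k : ℤ) :
    Commute D (pr k) := by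
  rw [Commute, SemiconjBy, ← sub_eq_zero]
  refine gr_ext hY fun j x hx => ?_
  rw [LinearMap.sub_apply, Module.End.mul_apply, Module.End.mul_apply, h.eig k j x hx,
    h.eig k j _ (comm_mem hD hx)]
  by_cases hj : j = k
  · rw [if_pos hj, if_pos hj, sub_self]
  · rw [if_neg hj, if_neg hj, map_zero, sub_zero]

/-- the components of an element of the filtration -/
theorem Pr.fil_sum (h : Pr Y pr) {B : ℕ}
    (hB : ∀ j : ℤ, (B : ℤ) < |j| → Y.eigenspace (j : K) = ⊥) {m : ℤ} {n : ℕ}
    (hn : m + B < n) {y : V} (hy : y ∈ Fil Y m) : ∑ s ∈ Finset.range n, pr (m - s) y = y := by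
  have h1 : Fil Y m ≤ LinearMap.eqLocus (∑ s ∈ Finset.range n, pr (m - s)) 1 :=
    Fil_le fun j hj x hx => by
      rw [LinearMap.mem_eqLocus, Module.End.one_apply, LinearMap.sum_apply]
      by_cases hj' : (B : ℤ) < |j|
      · rw [hB j hj', Submodule.mem_bot] at hx
        simp [hx]
      · push Not at hj'
        rw [abs_le] at hj'
        rw [Finset.sum_congr rfl fun (s : ℕ) _ => h.eig (m - (s : ℤ)) j x hx]
        rw [Finset.sum_eq_single (m - j).toNat]
        · rw [if_pos (by omega)]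
        · intro s _ hs
          rw [if_neg (by omega)]
        · intro hs
          exact absurd (Finset.mem_range.2 (by omega)) hs
  have h2 := h1 hy
  rw [LinearMap.mem_eqLocus, LinearMap.sum_apply, Module.End.one_apply] at h2
  exact h2

end P_DEC

open P_KER P_DEC in
theorem t_DEC : S_DEC := by
  intro K V _ _ _ _ _ Y T d hY hT
  obtain ⟨pr, hpr⟩ := exists_pr hY
  obtain ⟨B, hB⟩ := exists_bound Y
  let c : ℕ → Module.End K V := fun s =>
    ∑ k ∈ Finset.Icc (-(B : ℤ)) B, pr (k - d - s) * T * pr k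
  have hc : ∀ (s : ℕ) (l : ℤ) (x : V), x ∈ Y.eigenspace (l : K) → c s x = pr (l - d - s) (T x) := by
    intro s l x hx
    simp only [c, LinearMap.sum_apply, Module.End.mul_apply]
    by_cases hl : (B : ℤ) < |l|
    · rw [hB l hl, Submodule.mem_bot] at hx
      simp [hx]
    · push Not at hl
      rw [abs_le] at hl
      rw [Finset.sum_eq_single l]
      · rw [hpr.self hx]
      · intro k _ hk
        rw [hpr.eig k l x hx, if_neg (Ne.symm hk), map_zero, map_zero]
      · intro h
        exact absurd (Finset.mem_Icc.2 hl) h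
  obtain ⟨n, hn⟩ : ∃ n : ℕ, n = 2 * B + d.natAbs + 1 := ⟨_, rfl⟩
  refine ⟨n, c, ⟨?_, ?_, ?_⟩, ?_⟩
  · rw [← sub_eq_zero]
    refine gr_ext hY fun l x hx => ?_
    rw [LinearMap.sub_apply, LinearMap.sum_apply, Finset.sum_congr rfl fun s _ => hc s l x hx]
    by_cases hl : (B : ℤ) < |l|
    · rw [hB l hl, Submodule.mem_bot] at hx
      simp [hx]
    · push Not at hl
      rw [abs_le] at hl
      rw [hpr.fil_sum hB (by omega) (hT l x (mem_Fil le_rfl hx)), sub_self]
  · intro s
    rw [Deg, ← sub_eq_zero]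
    refine gr_ext hY fun l x hx => ?_
    rw [LinearMap.sub_apply, LinearMap.sub_apply, Module.End.mul_apply, Module.End.mul_apply,
      LinearMap.smul_apply, mem_eigenspace_iff.1 hx, map_smul, hc s l x hx,
      mem_eigenspace_iff.1 (hpr.mem _ _), ← sub_smul, ← sub_smul]
    have : (((l - d - s : ℤ) : K) - (l : K) - ((-(d + s) : ℤ) : K)) = 0 := by
      push_cast; ring
    rw [this, zero_smul]
  · intro s hs
    refine gr_ext hY fun l x hx => ?_
    rw [hc s l x hx]
    by_cases hl : (B : ℤ) < |l|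
    · rw [hB l hl, Submodule.mem_bot] at hx
      simp [hx]
    · push Not at hl
      rw [abs_le] at hl
      have h1 := hpr.mem (l - d - s) (T x)
      have h2 : (B : ℤ) < |l - d - s| := by
        rw [lt_abs]
        right
        omega
      rw [hB _ h2, Submodule.mem_bot] at h1
      exact h1
  · intro D t hD hDT s
    have hDT' : ∀ x, D (T x) = T (D x) + (t : K) • T x := by
      intro x
      have := congrArg (fun A : Module.End K V => A x) hDT
      simp only [LinearMap.sub_apply, Module.End.mul_apply, LinearMap.smul_apply] at this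
      rw [← this]
      abel
    have hpD : ∀ k x, D (pr k x) = pr k (D x) := fun k x =>
      congrArg (fun A : Module.End K V => A x) (hpr.comm hY hD k).eq
    rw [Deg, ← sub_eq_zero]
    refine gr_ext hY fun l x hx => ?_
    rw [LinearMap.sub_apply, LinearMap.sub_apply, Module.End.mul_apply, Module.End.mul_apply,
      LinearMap.smul_apply, hc s l x hx, hc s l _ (comm_mem hD hx), hpD, hDT', map_add, map_smul]
    abel

end Pool.Agent.L7h62.ND
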