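import Pool.Agent.L7h62.ND.Exa
import Pool.Agent.N184.HK.P_FOPE

set_option autoImplicit false
set_option linter.unusedSectionVars false

namespace Pool.Agent.L7h62.ND

open Module Module.End Pool.Agent.Y143 Pool.Agent.N184.HK Pool.Agent.N184.HK.P_FRM

open scoped Classical in
theorem t_DOP : S_DOP := by
  intro Ω V _ _ _ _ _ _ q hq m Φ hΦ
  obtain ⟨w, hw⟩ : ∃ w : Ω → Ω, ∀ (e : Ω) (j : ℤ), w e = (j : Ω) ↔ IsWeilNumber q (m + j) e := by
    refine ⟨fun e => if h : ∃ j : ℤ, IsWeilNumber q (m + j) e then ((h.choose : ℤ) : Ω) else 1 / 2,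
      fun e j => ?_⟩
    by_cases h : ∃ j : ℤ, IsWeilNumber q (m + j) e
    · simp only [dif_pos h]
      have h1 := h.choose_spec
      constructor
      · intro h2
        have h3 : h.choose = j := by exact_mod_cast h2
        rwa [h3] at h1
      · intro h2
        have := weight_unique hq h1 h2
        have h3 : h.choose = j := by omega
        rw [h3]
    · simp only [dif_neg h]
      refine ⟨fun h2 => ?_, fun h2 => absurd ⟨j, h2⟩ h⟩
      exfalso
      have h3 : ((2 * j : ℤ) : Ω) = ((1 : ℤ) : Ω) := by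
        push_cast
        rw [← h2]
        field_simp
      have h4 : 2 * j = 1 := by exact_mod_cast h3
      omega
  obtain ⟨f1, f2, f3⟩ := t_fope Ω V Φ w
  have hroot : ∀ e, Φ.maxGenEigenspace e ≠ ⊥ → ∃ j : ℤ, IsWeilNumber q (m + j) e := by
    intro e he
    have h1 : Φ.HasEigenvalue e := by
      have h' : Φ.HasUnifEigenvalue e ⊤ := he
      exact h'.lt (by simp)
    obtain ⟨v, hv⟩ := hΦ e h1
    exact ⟨v - m, by simpa using hv⟩
  refine ⟨fop Φ w, f3 fun e he => ?_, fun j => ?_, fun T hT => ?_, fun U hU x hx => ?_⟩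
  · obtain ⟨j, hj⟩ := hroot e (ne_bot_iff.2 he)
    exact ⟨j, (hw e j).2 hj⟩
  · rw [f1]
    have : {e : Ω | w e = (j : Ω)} = {e : Ω | IsWeilNumber q (m + j) e} := by
      ext e
      exact hw e j
    rw [this]
    rfl
  · rw [Deg]
    refine ext_gen Φ fun e x hx => ?_
    by_cases h0 : Φ.maxGenEigenspace e = ⊥
    · rw [h0, Submodule.mem_bot] at hx
      rw [hx, map_zero, map_zero]
    · obtain ⟨j, hj⟩ := hroot e h0
      have h1 : T x ∈ Φ.maxGenEigenspace (e / q) := N_eig hq hT e hx
      have h2 : w (e / q) = ((j - 2 : ℤ) : Ω) := by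
        rw [hw]
        have := weil_down hq hj
        have e3 : m + j - 2 = m + (j - 2) := by ring
        rwa [e3] at this
      simp only [LinearMap.sub_apply, Module.End.mul_apply, LinearMap.smul_apply]
      rw [fop_apply w h1, fop_apply w hx, map_smul, h2, (hw e j).2 hj, ← sub_smul]
      congr 1
      push_cast
      ring
  · have h1 : U = ⨆ μ, U ⊓ Φ.genEigenspace μ ⊤ :=
      Submodule.eq_iSup_inf_genEigenspace ⊤ hU (Module.End.iSup_maxGenEigenspace_eq_top Φ)
    have h2 : (⨆ μ, U ⊓ Φ.genEigenspace μ ⊤) ≤ U.comap (fop Φ w) := by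
      refine iSup_le fun μ y hy => ?_
      rw [Submodule.mem_comap, fop_apply w hy.2]
      exact Submodule.smul_mem _ _ hy.1
    exact h2 (h1 ▸ hx)

end Pool.Agent.L7h62.ND
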