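import Pool.Agent.L7h62.ND.Stm
import Pool.Agent.N184.HK.P_FRM

set_option autoImplicit false
set_option linter.unusedSectionVars false

namespace Pool.Agent.L7h62.ND

open Module Module.End Pool.Agent.Y143 Pool.Agent.N184.HK Pool.Agent.N184.HK.P_FRM

namespace P_EXA

variable {Ω : Type} [Field Ω] [IsAlgClosed Ω] {A B : Type}
  [AddCommGroup A] [Module Ω A]
  [AddCommGroup B] [Module Ω B]

/-- an intertwining map respects the sums of generalized eigenspaces -/
theorem map_ES {F : Module.End Ω A} {G : Module.End Ω B} {L : A →ₗ[Ω] B}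
    (hL : ∀ x, L (F x) = G (L x)) (T : Set Ω) {x : A} (hx : x ∈ ES F T) : L x ∈ ES G T := by
  have h : ES F T ≤ (ES G T).comap L := by
    refine ES_le F fun e he x hx => ?_
    refine le_ES G he ?_
    rw [mem_maxGenEigenspace] at hx ⊢
    obtain ⟨k, hk⟩ := hx
    refine ⟨k, ?_⟩
    have h1 : ∀ (k : ℕ) (x : A), ((G - e • (1 : Module.End Ω B)) ^ k) (L x) =
        L (((F - e • (1 : Module.End Ω A)) ^ k) x) := by
      intro k
      induction k with
      | zero => intro x; simp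
      | succ k ih =>
        intro x
        rw [pow_succ, Module.End.mul_apply]
        have h2 : (G - e • (1 : Module.End Ω B)) (L x) = L ((F - e • (1 : Module.End Ω A)) x) := by
          simp [hL]
        rw [h2, ih, pow_succ, Module.End.mul_apply]
    rw [h1, hk, map_zero]
  exact h hx

/-- an element of the image which lies in the part `T` comes from the part `T` (of a stable
subspace) -/
theorem lift_ES [FiniteDimensional Ω A] {F : Module.End Ω A} {G : Module.End Ω B} {L : A →ₗ[Ω] B}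
    (hL : ∀ x, L (F x) = G (L x)) (T : Set Ω) (p : Submodule Ω A) (hp : ∀ x ∈ p, F x ∈ p)
    {x : A} (hx : x ∈ p) (hLx : L x ∈ ES G T) : ∃ y ∈ p, y ∈ ES F T ∧ L y = L x := by
  obtain ⟨y, hy, z, hz, rfl⟩ := decomp F T p hp hx
  refine ⟨y, hy.1, hy.2, ?_⟩
  have h1 : L z ∈ ES G Tᶜ := map_ES hL _ hz.2
  have h2 : L z ∈ ES G T := by
    have : L z = L (y + z) - L y := by simp
    rw [this]
    exact Submodule.sub_mem _ hLx (map_ES hL _ hy.2)
  have h3 := (ES_disjoint G (disjoint_compl_right (a := T))).le_bot ⟨h2, h1⟩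
  rw [Submodule.mem_bot] at h3
  rw [map_add, h3, add_zero]

/-- the eigenvalues of the Frobenius of an mw pure module are Weil numbers -/
theorem weil_of_pure [CharZero Ω] [FiniteDimensional Ω A] {q : ℕ} {w : ℤ} {F N : Module.End Ω A}
    (h : IsMWPure q w F N) : ∀ e ∈ F.charpoly.roots, ∃ w : ℤ, IsWeilNumber q w e := by
  intro e he
  obtain ⟨M, hM, hst, hp⟩ := h
  rw [Polynomial.mem_roots (LinearMap.charpoly_monic F).ne_zero,
    ← Module.End.hasEigenvalue_iff_isRoot_charpoly] at he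
  obtain ⟨x, hx⟩ := he.exists_hasEigenvector
  have hxe := hx.apply_eq_smul
  obtain ⟨a, ha⟩ := hM.bot
  obtain ⟨b, hb⟩ := hM.top
  have h1 : ¬ x ∈ M a := by
    rw [ha, Submodule.mem_bot]
    exact hx.2
  have h2 : x ∈ M b := by rw [hb]; exact Submodule.mem_top
  have hab : a ≤ b := by
    by_contra hcon
    exact h1 (hM.mono (by omega) h2)
  obtain ⟨c, _, _, h3, h4⟩ := step (fun c => x ∈ M c) h1 hab h2
  exact ⟨c + w, hp c e x h3 h4 (by rw [hxe, sub_self]; exact zero_mem _)⟩

theorem pow_int {F : Module.End Ω A} {G : Module.End Ω B} {L : A →ₗ[Ω] B}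
    (hL : ∀ x, L (F x) = G (L x)) (n : ℕ) (x : A) : L ((F ^ n) x) = (G ^ n) (L x) := by
  induction n generalizing x with
  | zero => simp
  | succ n ih => rw [pow_succ, Module.End.mul_apply, ih, hL, pow_succ, Module.End.mul_apply]

end P_EXA

open P_EXA in
theorem t_EXA : S_EXA := by
  intro Ω _ _ _ q hq w R hR b
  obtain ⟨hA, hB, hC⟩ := hR
  have bA := t_frm Ω R.A q hq w R.FA R.NA (weil_of_pure hA) R.relA hA b
  have bB := t_frm Ω R.B q hq w R.FB R.NB (weil_of_pure hB) R.relB hB b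
  have bC := t_frm Ω R.C q hq w R.FC R.NC (weil_of_pure hC) R.relC hC b
  refine ⟨?_, ?_⟩
  · intro x hx _ hNx
    obtain ⟨a, ha⟩ := hNx
    have h1 : R.f a ∈ ES R.FB (WW Ω q (w - b)) := by
      rw [ha]; exact bB.mapsTo hx
    obtain ⟨a', _, ha', haa⟩ := lift_ES (F := R.FA) (G := R.FB) (L := R.f) R.f_F
      (WW Ω q (w - b)) ⊤ (fun _ _ => Submodule.mem_top) (Submodule.mem_top (x := a)) h1
    obtain ⟨a'', ha'', hna⟩ := bA.surjOn ha'
    have h2 : R.f a'' ∈ ES R.FB (WW Ω q (w + b)) := map_ES R.f_F _ ha''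
    have h3 : (R.NB ^ b) (R.f a'') = (R.NB ^ b) x := by
      rw [← pow_int R.f_N, hna, haa, ha]
    exact ⟨a'', bB.injOn h2 hx h3⟩
  · intro y hy hgy
    obtain ⟨x, hx, hxy⟩ := bB.surjOn hy
    refine ⟨x, hx, ?_, hxy⟩
    have h2 : R.g x ∈ ES R.FC (WW Ω q (w + b)) := map_ES R.g_F _ hx
    refine bC.injOn h2 (Submodule.zero_mem _) ?_
    rw [← pow_int R.g_N, hxy, hgy, map_zero]

end Pool.Agent.L7h62.ND
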