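import Pool.Agent.L7h62.ND.Ker

set_option autoImplicit false
set_option linter.unusedSectionVars false

namespace Pool.Agent.L7h62.ND

open Module Module.End Pool.Agent.Y143

open P_KER in
theorem t_NIL : S_NIL := by
  intro K V _ _ _ _ _ D Z hD hZ
  obtain ⟨B, hB⟩ := exists_bound D
  have h1 : Z ^ (B + 1) = 0 := by
    refine gr_ext hD fun j x hx => ?_
    by_cases hj : (B : ℤ) < |j|
    · rw [hB j hj, Submodule.mem_bot] at hx
      rw [hx, map_zero]
    · have h2 := deg_pow hZ (B + 1) hx
      have h3 : (B : ℤ) < |j + ((B + 1 : ℕ) : ℤ) * -2| := by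
        push Not at hj
        have := (abs_le.1 hj).2
        rw [lt_abs]
        right
        push_cast
        linarith
      rw [hB _ h3, Submodule.mem_bot] at h2
      exact h2
  have h2 : IsNilpotent Z := ⟨_, h1⟩
  have h3 := LinearMap.isNilpotent_iff_charpoly Z |>.1 h2
  have h4 := LinearMap.aeval_self_charpoly Z
  rw [h3] at h4
  simpa using h4

namespace P_EXP

variable {Ω V : Type} [Field Ω] [CharZero Ω] [AddCommGroup V] [Module Ω V]

theorem expo_add {Z : Module.End Ω V} (h : Z ^ (finrank Ω V) = 0) (a b : Ω) :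
    expo (a • Z) * expo (b • Z) = expo ((a + b) • Z) := by
  let i0 : Module ℚ (Module.End Ω V) := Module.compHom _ (algebraMap ℚ Ω)
  have h0 : ∀ c : Ω, (c • Z) ^ (finrank Ω V + 1) = 0 := by
    intro c
    rw [pow_succ, smul_pow, h, smul_zero, zero_mul]
  have h1 : ∀ c : Ω, expo (c • Z) = IsNilpotent.exp (c • Z) := by
    intro c
    rw [IsNilpotent.exp_eq_sum (h0 c), expo]
    refine Finset.sum_congr rfl fun n _ => ?_
    have h2 : ∀ (r : ℚ) (x : Module.End Ω V), r • x = (algebraMap ℚ Ω r) • x := fun r x => rfl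
    rw [h2]
    congr 1
    simp
  rw [h1, h1, h1, add_smul]
  refine (IsNilpotent.exp_add_of_commute ?_ ⟨_, h0 a⟩ ⟨_, h0 b⟩).symm
  exact ((Commute.refl Z).smul_left a).smul_right b

theorem expo_zero : expo ((0 : Ω) • (0 : Module.End Ω V)) = 1 := by
  rw [expo, Finset.sum_range_succ']
  simp

theorem expo_zero' (Z : Module.End Ω V) : expo ((0 : Ω) • Z) = 1 := by
  rw [zero_smul]
  have := expo_zero (Ω := Ω) (V := V)
  rwa [smul_zero] at this

theorem transport {q : ℕ} {m : ℤ} {Φ Φ' N u v : Module.End Ω V} (huv : u * v = 1)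
    (hvu : v * u = 1) (h1 : u * Φ = Φ' * u) (h2 : u * N = N * u) (h : IsMWPure q m Φ N) :
    IsMWPure q m Φ' N := by
  have e1 : ∀ x, u (v x) = x := fun x => congrArg (fun A : Module.End Ω V => A x) huv
  have e2 : ∀ x, v (u x) = x := fun x => congrArg (fun A : Module.End Ω V => A x) hvu
  have e3 : ∀ x, v (N x) = N (v x) := by
    intro x
    have : u (N (v x)) = N (u (v x)) := congrArg (fun A : Module.End Ω V => A (v x)) h2
    rw [e1] at this
    rw [← this, e2]
  have e4 : ∀ x, v (Φ' x) = Φ (v x) := by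
    intro x
    have : u (Φ (v x)) = Φ' (u (v x)) := congrArg (fun A : Module.End Ω V => A (v x)) h1
    rw [e1] at this
    rw [← this, e2]
  have e5 : ∀ (n : ℕ) x, v ((N ^ n) x) = (N ^ n) (v x) := by
    intro n
    induction n with
    | zero => intro x; simp
    | succ n ih => intro x; rw [pow_succ, Module.End.mul_apply, ih, e3, Module.End.mul_apply]
  obtain ⟨M, hM, hst, hp⟩ := h
  refine ⟨fun a => (M a).comap v, ⟨fun a b hab => Submodule.comap_mono (hM.mono hab), ?_, ?_, ?_,
    ?_, ?_⟩, ?_, ?_⟩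
  · obtain ⟨a, ha⟩ := hM.bot
    refine ⟨a, ?_⟩
    rw [eq_bot_iff]
    intro x hx
    rw [Submodule.mem_comap, ha, Submodule.mem_bot] at hx
    rw [Submodule.mem_bot, ← e1 x, hx, map_zero]
  · obtain ⟨a, ha⟩ := hM.top
    exact ⟨a, by rw [ha, Submodule.comap_top]⟩
  · intro a x hx
    rw [Submodule.mem_comap, e3]
    exact hM.map a _ hx
  · intro a x hx hNx
    rw [Submodule.mem_comap, e5] at hNx
    exact hM.inj a _ hx hNx
  · intro a y hy
    obtain ⟨x, hx, hxy⟩ := hM.surj a _ hy
    refine ⟨u x, ?_, ?_⟩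
    · rw [Submodule.mem_comap, e2]; exact hx
    · rw [Submodule.mem_comap, map_sub, e5, e2]; exact hxy
  · intro a x hx
    rw [Submodule.mem_comap, e4]
    exact hst a _ hx
  · intro a α x hx hx' hα
    refine hp a α (v x) hx hx' ?_
    rw [Submodule.mem_comap, map_sub, map_smul, e4] at hα
    exact hα

end P_EXP

open P_EXP in
theorem t_EXP : S_EXP := by
  intro Ω V _ _ _ _ _ q hq m Φ Z N hZ hc hn
  have hq1 : (q : Ω) - 1 ≠ 0 := by
    rw [sub_ne_zero]
    exact_mod_cast hq.ne'
  have hZΦ : ∀ n : ℕ, Z ^ n * Φ = ((q : Ω) ^ n) • (Φ * Z ^ n) := by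
    intro n
    induction n with
    | zero => simp
    | succ n ih =>
      have h0 : Z * Φ = (q : Ω) • (Φ * Z) := by
        ext x
        exact hZ x
      rw [pow_succ, mul_assoc, h0, mul_smul_comm, ← mul_assoc, ih, smul_mul_assoc, smul_smul,
        mul_assoc, ← pow_succ, pow_succ (q : Ω), mul_comm]
  have hexp : ∀ t : Ω, expo (t • Z) * Φ = Φ * expo ((t * q) • Z) := by
    intro t
    rw [expo, expo, Finset.sum_mul, Finset.mul_sum]
    refine Finset.sum_congr rfl fun n _ => ?_
    rw [smul_mul_assoc, smul_pow, smul_mul_assoc, hZΦ, smul_pow, mul_smul_comm, mul_smul_comm,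
      mul_pow, smul_smul, smul_smul, smul_smul]
    congr 1
    ring
  have hcomm : ∀ t : Ω, expo (t • Z) * N = N * expo (t • Z) := by
    intro t
    have : Commute (expo (t • Z)) N := by
      rw [expo]
      refine Commute.sum_left _ _ _ fun n _ => ?_
      exact ((hc.smul_left t).pow_left n).smul_left _
    exact this.eq
  set t : Ω := ((q : Ω) - 1)⁻¹ with ht
  have huv : expo (t • Z) * expo ((-t) • Z) = 1 := by
    rw [expo_add hn, add_neg_cancel]
    exact expo_zero' Z
  have hvu : expo ((-t) • Z) * expo (t • Z) = 1 := by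
    rw [expo_add hn, neg_add_cancel]
    exact expo_zero' Z
  have h1 : expo (t • Z) * Φ = (Φ * expo Z) * expo (t • Z) := by
    rw [hexp, mul_assoc]
    congr 1
    have : expo Z = expo ((1 : Ω) • Z) := by rw [one_smul]
    rw [this, expo_add hn]
    congr 2
    rw [ht]
    field_simp
    ring
  constructor
  · intro h
    refine transport hvu huv ?_ (hcomm _) h
    calc expo ((-t) • Z) * (Φ * expo Z) = expo ((-t) • Z) * (Φ * expo Z) *
          (expo (t • Z) * expo ((-t) • Z)) := by rw [huv, mul_one]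
      _ = expo ((-t) • Z) * ((Φ * expo Z) * expo (t • Z)) * expo ((-t) • Z) := by
          noncomm_ring
      _ = Φ * expo ((-t) • Z) := by
          rw [← h1, ← mul_assoc, hvu, one_mul]
  · intro h
    exact transport huv hvu h1 (hcomm _) h

end Pool.Agent.L7h62.ND
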