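import Pool.Agent.L7h62.ND.Dec

set_option autoImplicit false
set_option linter.unusedSectionVars false

namespace Pool.Agent.L7h62.ND

open Module Module.End

namespace P_GRD

open P_KER P_DEC

variable {K V : Type} [Field K] [CharZero K] [AddCommGroup V] [Module K V]
  [FiniteDimensional K V]

/-- a projection onto a stable subspace which commutes with `D` -/
theorem exists_proj {D : Module.End K V} (hD : Gr D) (W : Submodule K V)
    (hW : ∀ x ∈ W, D x ∈ W) : ∃ r : Module.End K V, Commute r D ∧ (∀ x, r x ∈ W) ∧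
      ∀ x ∈ W, r x = x := by
  obtain ⟨pr, hpr⟩ := exists_pr hD
  obtain ⟨B, hB⟩ := exists_bound D
  obtain ⟨π, hπ⟩ := W.subtype.exists_leftInverse_of_injective (by simp)
  have h1 : ∀ k, ∀ x ∈ W, pr k x ∈ W := by
    intro k
    have h2 : W = ⨆ μ, W ⊓ D.genEigenspace μ 1 := by
      refine Submodule.eq_iSup_inf_genEigenspace 1 hW ?_
      rw [eq_top_iff, ← hD]
      exact iSup_le fun i => le_iSup (fun μ => D.genEigenspace μ 1) (i : K)
    have h3 : (⨆ μ, W ⊓ D.genEigenspace μ 1) ≤ W.comap (pr k) := by
      refine iSup_le fun μ x hx => ?_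
      obtain ⟨hxW, hxμ⟩ := hx
      rw [Submodule.mem_comap]
      by_cases hμ : μ = (k : K)
      · subst hμ
        rw [hpr.self hxμ]
        exact hxW
      · -- the component is zero
        have h4 : D (pr k x) = pr k (D x) :=
          congrArg (fun A : Module.End K V => A x) (hpr.comm hD (Commute.refl D) k).eq
        rw [mem_eigenspace_iff.1 (hpr.mem k x), mem_eigenspace_iff.1 hxμ, map_smul] at h4
        have h5 : (μ - (k : K)) • pr k x = 0 := by rw [sub_smul, h4, sub_self]
        rcases smul_eq_zero.1 h5 with h6 | h6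
        · exact absurd (sub_eq_zero.1 h6) hμ
        · rw [h6]; exact zero_mem _
    intro x hx
    exact h3 (h2 ▸ hx)
  refine ⟨∑ k ∈ Finset.Icc (-(B : ℤ)) B, pr k * (W.subtype ∘ₗ π) * pr k, ?_, ?_, ?_⟩
  · refine Commute.sum_left _ _ _ fun k _ => ?_
    have e1 : ∀ x, D (pr k x) = (k : K) • pr k x := fun x => mem_eigenspace_iff.1 (hpr.mem k x)
    have e2 : ∀ x, pr k (D x) = (k : K) • pr k x := fun x => by
      have h4 : D (pr k x) = pr k (D x) :=
        congrArg (fun A : Module.End K V => A x) (hpr.comm hD (Commute.refl D) k).eq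
      rw [← h4, e1]
    ext x
    simp only [Module.End.mul_apply]
    rw [e1, e2, map_smul, map_smul]
  · intro x
    rw [LinearMap.sum_apply]
    refine Submodule.sum_mem _ fun k _ => ?_
    rw [Module.End.mul_apply, Module.End.mul_apply]
    exact h1 k _ (π (pr k x)).2
  · intro x hx
    rw [LinearMap.sum_apply]
    have h2 : ∀ k, (pr k * (W.subtype ∘ₗ π) * pr k) x = pr k x := by
      intro k
      rw [Module.End.mul_apply, Module.End.mul_apply, LinearMap.comp_apply]
      have h3 := congrArg (fun A : W →ₗ[K] W => A ⟨pr k x, h1 k x hx⟩) hπ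
      simp only [LinearMap.comp_apply, Submodule.subtype_apply, LinearMap.id_apply] at h3
      rw [h3, Submodule.subtype_apply]
      exact hpr.self (hpr.mem k x)
    rw [Finset.sum_congr rfl fun k _ => h2 k]
    exact hpr.sum hD hB x

end P_GRD

open P_KER P_DEC P_GRD in
theorem t_GRD : S_GRD := by
  intro K V _ _ _ _ _ D hD W hmono hbot htop hst
  obtain ⟨a, ha⟩ := hbot
  obtain ⟨b, hb⟩ := htop
  choose r hrD hrm hrs using fun k : ℤ => exists_proj hD (W k) (hst k)
  obtain ⟨P, hP0, hPs⟩ : ∃ P : ℕ → Module.End K V, P 0 = 1 ∧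
      ∀ n, P (n + 1) = r (b - ((n + 1 : ℕ) : ℤ)) * P n :=
    ⟨fun n => Nat.rec 1 (fun n A => r (b - ((n + 1 : ℕ) : ℤ)) * A) n, rfl, fun n => rfl⟩
  have hPD : ∀ n, Commute (P n) D := by
    intro n
    induction n with
    | zero => rw [hP0]; exact Commute.one_left D
    | succ n ih => rw [hPs]; exact (hrD _).mul_left ih
  have hPm : ∀ (n : ℕ) x, P n x ∈ W (b - n) := by
    intro n
    cases n with
    | zero => intro x; simp [hb]
    | succ n => intro x; rw [hPs, Module.End.mul_apply]; exact hrm _ _
  have hPf : ∀ n : ℕ, ∀ x ∈ W (b - n), P n x = x := by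
    intro n
    induction n with
    | zero => intro x _; rw [hP0]; rfl
    | succ n ih =>
      intro x hx
      rw [hPs, Module.End.mul_apply, ih x (hmono (by push_cast; omega) hx)]
      exact hrs _ x hx
  -- products
  have hle : ∀ m n, m ≤ n → P m * P n = P n := by
    intro m n hmn
    ext x
    exact hPf m _ (hmono (by omega) (hPm n x))
  have hge : ∀ n m, n ≤ m → P m * P n = P m := by
    intro n m hnm
    induction m, hnm using Nat.le_induction with
    | base => exact hle n n le_rfl
    | succ m _ ih => rw [hPs, mul_assoc, ih]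
  obtain ⟨L, hL⟩ : ∃ L : ℕ, b - L ≤ a := ⟨(b - a).toNat, by omega⟩
  have hPL : P L = 0 := by
    ext x
    have h1 : P L x ∈ W a := hmono hL (hPm L x)
    rw [ha, Submodule.mem_bot] at h1
    exact h1
  obtain ⟨e, he⟩ : ∃ e : ℕ → Module.End K V, ∀ n, e n = P n - P (n + 1) := ⟨_, fun n => rfl⟩
  have hee : ∀ m n, e m * e n = if m = n then e n else 0 := by
    intro m n
    rw [he, he, sub_mul, mul_sub, mul_sub]
    rcases lt_trichotomy m n with h | h | h
    · rw [if_neg (by omega), hle m n (by omega), hle m (n + 1) (by omega),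
        hle (m + 1) n (by omega), hle (m + 1) (n + 1) (by omega), sub_self]
    · subst h
      rw [if_pos rfl, hle m m le_rfl, hle m (m + 1) (by omega), hge m (m + 1) (by omega),
        hle (m + 1) (m + 1) le_rfl, sub_self, sub_zero]
    · rw [if_neg (by omega), hge n m (by omega), hge (n + 1) m (by omega),
        hge n (m + 1) (by omega), hge (n + 1) (m + 1) (by omega), sub_self]
      simp
  have hsum : ∀ x, ∑ n ∈ Finset.range L, e n x = x := by
    intro x
    have h1 : ∑ n ∈ Finset.range L, (P n x - P (n + 1) x) = P 0 x - P L x :=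
      Finset.sum_range_sub' (fun n => P n x) L
    have h2 : ∀ n, e n x = P n x - P (n + 1) x := fun n => by rw [he]; rfl
    rw [Finset.sum_congr rfl fun n _ => h2 n, h1, hP0, hPL]
    simp
  obtain ⟨Y, hY⟩ : ∃ Y : Module.End K V, Y = ∑ n ∈ Finset.range L, ((b - n : ℤ) : K) • e n :=
    ⟨_, rfl⟩
  have hYe : ∀ n < L, Y * e n = ((b - n : ℤ) : K) • e n := by
    intro n hn
    rw [hY, Finset.sum_mul, Finset.sum_eq_single n]
    · rw [smul_mul_assoc, hee, if_pos rfl]
    · intro m _ hm
      rw [smul_mul_assoc, hee, if_neg hm, smul_zero]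
    · intro h; exact absurd (Finset.mem_range.2 hn) h
  have heY : ∀ n < L, e n * Y = ((b - n : ℤ) : K) • e n := by
    intro n hn
    rw [hY, Finset.mul_sum, Finset.sum_eq_single n]
    · rw [mul_smul_comm, hee, if_pos rfl]
    · intro m _ hm
      rw [mul_smul_comm, hee, if_neg (Ne.symm hm), smul_zero]
    · intro h; exact absurd (Finset.mem_range.2 hn) h
  have hmem : ∀ n < L, ∀ x, e n x ∈ Y.eigenspace ((b - n : ℤ) : K) := by
    intro n hn x
    rw [mem_eigenspace_iff]
    exact congrArg (fun A : Module.End K V => A x) (hYe n hn)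
  refine ⟨Y, ?_, ?_, ?_⟩
  · rw [Gr, eq_top_iff]
    intro x _
    rw [← hsum x]
    refine Submodule.sum_mem _ fun n hn => ?_
    exact (le_iSup (fun j : ℤ => Y.eigenspace (j : K)) (b - n)) (hmem n (Finset.mem_range.1 hn) x)
  · rw [hY]
    refine Commute.sum_left _ _ _ fun n _ => Commute.smul_left ?_ _
    rw [he]
    exact (hPD n).sub_left (hPD (n + 1))
  · intro k
    refine le_antisymm ?_ ?_
    · intro x hx
      rw [← hsum x]
      refine Submodule.sum_mem _ fun n hn => ?_
      by_cases hk : b - n ≤ k
      · exact mem_Fil hk (hmem n (Finset.mem_range.1 hn) x)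
      · have h1 : e n x = 0 := by
          rw [he, LinearMap.sub_apply, hPf n x (hmono (by omega) hx),
            hPf (n + 1) x (hmono (by push_cast; omega) hx), sub_self]
        rw [h1]
        exact zero_mem _
    · refine Fil_le fun j hj x hx => hmono hj ?_
      rw [mem_eigenspace_iff] at hx
      rw [← hsum x]
      refine Submodule.sum_mem _ fun n hn => ?_
      by_cases hn' : b - n = j
      · rw [← hn', he, LinearMap.sub_apply]
        exact Submodule.sub_mem _ (hPm n x) (hmono (by push_cast; omega) (hPm (n + 1) x))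
      · have h1 : e n (Y x) = ((b - n : ℤ) : K) • e n x :=
          congrArg (fun A : Module.End K V => A x) (heY n (Finset.mem_range.1 hn))
        rw [hx, map_smul] at h1
        have h2 : ((j : K) - ((b - n : ℤ) : K)) • e n x = 0 := by rw [sub_smul, h1, sub_self]
        rcases smul_eq_zero.1 h2 with h3 | h3
        · exfalso
          apply hn'
          have h4 := sub_eq_zero.1 h3
          exact_mod_cast h4.symm
        · rw [h3]; exact zero_mem _

end Pool.Agent.L7h62.ND
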