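import Pool.Agent.L7h62.ND.Ker

set_option autoImplicit false
set_option linter.unusedSectionVars false

namespace Pool.Agent.L7h62.ND

open Module Module.End

namespace P_KER

variable {K V : Type} [Field K] [CharZero K] [AddCommGroup V] [Module K V]

theorem comm_mem {D Y : Module.End K V} (h : Commute Y D) {e : K} {x : V}
    (hx : x ∈ D.eigenspace e) : Y x ∈ D.eigenspace e := by
  rw [mem_eigenspace_iff] at hx ⊢
  have h1 := congrArg (fun A : Module.End K V => A x) h.eq
  simp only [Module.End.mul_apply] at h1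
  rw [← h1, hx, map_smul]

/-- the intersections of the eigenspaces span -/
theorem gr2 [FiniteDimensional K V] {D Y : Module.End K V} (hD : Gr D) (hY : Gr Y)
    (h : Commute Y D) : (⨆ p : ℤ × ℤ, D.eigenspace (p.1 : K) ⊓ Y.eigenspace (p.2 : K)) = ⊤ := by
  rw [eq_top_iff, ← hD]
  refine iSup_le fun j => ?_
  have h1 : D.eigenspace (j : K) = ⨆ μ, D.eigenspace (j : K) ⊓ Y.genEigenspace μ 1 := by
    refine Submodule.eq_iSup_inf_genEigenspace 1 (fun x hx => comm_mem h hx) ?_
    rw [eq_top_iff, ← hY]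
    exact iSup_le fun i => le_iSup (fun μ => Y.genEigenspace μ 1) (i : K)
  rw [h1]
  refine iSup_le fun μ => ?_
  by_cases hμ : ∃ i : ℤ, (i : K) = μ
  · obtain ⟨i, rfl⟩ := hμ
    exact le_iSup (fun p : ℤ × ℤ => D.eigenspace (p.1 : K) ⊓ Y.eigenspace (p.2 : K)) (j, i)
  · -- `μ` is not an eigenvalue
    have h2 : Disjoint (Y.eigenspace μ) (⨆ i : ℤ, Y.eigenspace (i : K)) := by
      have h3 := (Module.End.eigenspaces_iSupIndep Y) μ
      refine h3.mono_right (iSup_le fun i => ?_)
      exact le_biSup (fun e => Y.eigenspace e) (show (i : K) ≠ μ from fun e => hμ ⟨i, e⟩)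
    rw [hY, disjoint_top] at h2
    refine le_trans inf_le_right ?_
    change Y.eigenspace μ ≤ _
    rw [h2]
    exact bot_le

end P_KER

open P_KER in
theorem t_GRS : S_GRS := by
  intro K V _ _ _ _ _ D Y hD hY h
  rw [Gr, eq_top_iff, ← gr2 hD hY h]
  refine iSup_le fun p => ?_
  refine le_trans ?_ (le_iSup (fun j : ℤ => (D - Y).eigenspace (j : K)) (p.1 - p.2))
  intro x hx
  obtain ⟨h1, h2⟩ := hx
  have h1' := mem_eigenspace_iff.1 h1
  have h2' := mem_eigenspace_iff.1 h2
  rw [mem_eigenspace_iff, LinearMap.sub_apply, h1', h2', ← sub_smul]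
  push_cast
  rfl

end Pool.Agent.L7h62.ND
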