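import Pool.Agent.L7h62.ND.Hls

set_option autoImplicit false
set_option linter.unusedSectionVars false

namespace Pool.Agent.L7h62.ND

open Module Module.End Pool.Agent.Y143

open P_KER P_DEC P_HLS in
theorem t_HLN : S_HLN := by
  intro K V _ _ _ _ _ D Y N n c hD hY hYD hN hDc hG b
  obtain ⟨pr, hpr⟩ := exists_pr hY
  obtain ⟨B, hB⟩ := exists_bound Y
  have hpD : ∀ k x, D (pr k x) = pr k (D x) := fun k x =>
    congrArg (fun A : Module.End K V => A x) (hpr.comm hY hYD.symm k).eq
  have hpY : ∀ k x, Y (pr k x) = pr k (Y x) := fun k x =>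
    congrArg (fun A : Module.End K V => A x) (hpr.comm hY (Commute.refl Y) k).eq
  -- `c 0` commutes with `Y`
  have hcY : Commute (c 0) Y := by
    have := hN.2.1 0
    rw [Deg] at this
    rw [Commute, SemiconjBy, eq_comm, ← sub_eq_zero, this]
    simp
  have hpc : ∀ (a : ℕ) k x, ((c 0) ^ a) (pr k x) = pr k (((c 0) ^ a) x) := fun a k x =>
    congrArg (fun A : Module.End K V => A x) ((hpr.comm hY hcY k).pow_left a).eq
  have hdeg : Deg (D - Y) (c 0) (-2) := by
    have h1 := hDc 0
    have h2 := hcY.eq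
    rw [Deg] at h1 ⊢
    rw [sub_mul, mul_sub, h2, ← h1]
    abel
  -- components of an element of `D - Y`-degree `e`
  have comp : ∀ (e : ℤ) (x : V), x ∈ (D - Y).eigenspace (e : K) → ∀ k : ℤ,
      pr k x ∈ D.eigenspace ((k + e : ℤ) : K) := by
    intro e x hx k
    rw [mem_eigenspace_iff, LinearMap.sub_apply, sub_eq_iff_eq_add] at hx
    rw [mem_eigenspace_iff, hpD, hx, map_add, map_smul, ← hpY, mem_eigenspace_iff.1 (hpr.mem k x),
      ← add_smul]
    congr 1
    push_cast
    ring
  have comp' : ∀ (e k : ℤ) (x : V), x ∈ D.eigenspace ((k + e : ℤ) : K) →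
      pr k x ∈ (D - Y).eigenspace (e : K) := by
    intro e k x hx
    rw [mem_eigenspace_iff, LinearMap.sub_apply, mem_eigenspace_iff.1 (hpr.mem k x), hpD,
      mem_eigenspace_iff.1 hx, map_smul, ← sub_smul]
    congr 1
    push_cast
    ring
  refine ⟨?_, ?_, ?_⟩
  · intro x hx
    have hx' : x ∈ (D - Y).eigenspace ((b : ℤ) : K) := by exact_mod_cast hx
    have h1 := deg_pow hdeg b hx'
    have e : (((b : ℤ) + b * -2 : ℤ) : K) = -(b : K) := by push_cast; ring
    rw [e] at h1
    exact h1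
  · have key : ∀ x ∈ (D - Y).eigenspace ((b : ℤ) : K), ((c 0) ^ b) x = 0 → x = 0 := by
      intro x hx h0
      refine hpr.ext hY fun k => ?_
      have h1 : ((c 0) ^ b) (pr k x) = 0 := by rw [hpc, h0, map_zero]
      have hxk := mem_Fil (le_refl k) (hpr.mem k x)
      have h2 := pow_sub_mem hN b hxk
      rw [h1, sub_zero, mul_zero, sub_zero] at h2
      have h3 := (hG k b).1 (pr k x) hxk (comp b x hx k) h2
      exact hpr.eq_zero (by omega) h3 (hpr.mem k x)
    intro x hx y hy hxy
    have hx' : x ∈ (D - Y).eigenspace ((b : ℤ) : K) := by exact_mod_cast hx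
    have hy' : y ∈ (D - Y).eigenspace ((b : ℤ) : K) := by exact_mod_cast hy
    exact sub_eq_zero.1 (key _ (Submodule.sub_mem _ hx' hy') (by rw [map_sub, hxy, sub_self]))
  · intro y hy
    have e : ((-(b : ℤ) : ℤ) : K) = -(b : K) := by push_cast; rfl
    have hy' : y ∈ (D - Y).eigenspace ((-(b : ℤ) : ℤ) : K) := by rw [e]; exact hy
    -- preimages of the components
    have hk : ∀ k : ℤ, ∃ x ∈ (D - Y).eigenspace ((b : ℤ) : K), ((c 0) ^ b) x = pr k y := by
      intro k
      obtain ⟨x, hx, hxD, hxy⟩ := (hG k b).2 (pr k y) (mem_Fil le_rfl (hpr.mem k y))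
        (comp _ y hy' k)
      refine ⟨pr k x, comp' b k x hxD, ?_⟩
      have h1 := pow_sub_mem hN b hx
      have h2 := c_pow_mem hN b (hpr.sub_mem hx)
      rw [map_sub, mul_zero, sub_zero] at h2
      rw [mul_zero, sub_zero] at h1
      have h3 : pr k y - ((c 0) ^ b) (pr k x) ∈ Fil Y (k - 1) := by
        have e3 : pr k y - ((c 0) ^ b) (pr k x) = (pr k y - (N ^ b) x) +
          ((N ^ b) x - ((c 0) ^ b) x) + (((c 0) ^ b) x - ((c 0) ^ b) (pr k x)) := by abel
        rw [e3]
        exact Submodule.add_mem _ (Submodule.add_mem _ hxy h1) h2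
      have h4 : ((c 0) ^ b) (pr k x) ∈ Y.eigenspace (k : K) := by
        rw [hpc]
        exact hpr.mem k _
      have h5 := hpr.eq_zero (by omega) h3 (Submodule.sub_mem _ (hpr.mem k y) h4)
      exact (sub_eq_zero.1 h5).symm
    choose x hx hxy using hk
    refine ⟨∑ k ∈ Finset.Icc (-(B : ℤ)) B, x k, ?_, ?_⟩
    · refine Submodule.sum_mem _ fun k _ => ?_
      have := hx k
      rw [Int.cast_natCast] at this
      exact this
    · rw [map_sum, Finset.sum_congr rfl fun k _ => hxy k, hpr.sum hY hB]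

end Pool.Agent.L7h62.ND
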