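import Pool.Agent.L7h62.ND.Dec

set_option autoImplicit false
set_option linter.unusedSectionVars false

namespace Pool.Agent.L7h62.ND

open Module Module.End Pool.Agent.Y143

namespace P_HLS

open P_KER P_DEC

variable {K V : Type} [Field K] [CharZero K] [AddCommGroup V] [Module K V]
  [FiniteDimensional K V] {Y T : Module.End K V} {d : ℤ} {n : ℕ} {c : ℕ → Module.End K V}

theorem comp_mem (h : Dec Y T d n c) (s : ℕ) {k : ℤ} {x : V} (hx : x ∈ Fil Y k) :
    c s x ∈ Fil Y (k - d - s) := by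
  have h1 : Fil Y k ≤ (Fil Y (k - d - s)).comap (c s) := Fil_le fun j hj x hx => by
    have h2 := deg_eig (h.2.1 s) hx
    exact mem_Fil (by omega) h2
  exact h1 hx

/-- `T x - c 0 x` is in the next step -/
theorem sub_mem (h : Dec Y T d n c) {k : ℤ} {x : V} (hx : x ∈ Fil Y k) :
    T x - c 0 x ∈ Fil Y (k - d - 1) := by
  have h1 : T = ∑ s ∈ Finset.range (n + 1), c s := by
    rw [Finset.sum_range_succ, h.2.2 n le_rfl, add_zero]
    exact h.1
  rw [h1, Finset.sum_range_succ', LinearMap.add_apply, add_sub_cancel_right, LinearMap.sum_apply]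
  refine Submodule.sum_mem _ fun s _ => ?_
  have h2 := comp_mem h (s + 1) hx
  exact Fil_mono Y (by push_cast; omega) h2

theorem T_mem (h : Dec Y T d n c) {k : ℤ} {x : V} (hx : x ∈ Fil Y k) : T x ∈ Fil Y (k - d) := by
  have h1 := sub_mem h hx
  have h2 := comp_mem h 0 hx
  have h3 : T x = (T x - c 0 x) + c 0 x := by abel
  rw [h3]
  refine Submodule.add_mem _ (Fil_mono Y (by omega) h1) (Fil_mono Y (by push_cast; omega) h2)

theorem c_pow_mem (h : Dec Y T d n c) (a : ℕ) {k : ℤ} {x : V} (hx : x ∈ Fil Y k) :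
    ((c 0) ^ a) x ∈ Fil Y (k - a * d) := by
  induction a generalizing k x with
  | zero => simpa using hx
  | succ a ih =>
    rw [pow_succ, Module.End.mul_apply]
    have h1 := ih (comp_mem h 0 hx)
    have e : k - d - ((0 : ℕ) : ℤ) - a * d = k - ((a + 1 : ℕ) : ℤ) * d := by push_cast; ring
    rwa [e] at h1

theorem T_pow_mem (h : Dec Y T d n c) (a : ℕ) {k : ℤ} {x : V} (hx : x ∈ Fil Y k) :
    (T ^ a) x ∈ Fil Y (k - a * d) := by
  induction a generalizing k x with
  | zero => simpa using hx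
  | succ a ih =>
    rw [pow_succ, Module.End.mul_apply]
    have h1 := ih (T_mem h hx)
    have e : k - d - a * d = k - ((a + 1 : ℕ) : ℤ) * d := by push_cast; ring
    rwa [e] at h1

theorem pow_sub_mem (h : Dec Y T d n c) (a : ℕ) {k : ℤ} {x : V} (hx : x ∈ Fil Y k) :
    (T ^ a) x - ((c 0) ^ a) x ∈ Fil Y (k - a * d - 1) := by
  induction a generalizing k x with
  | zero => simp
  | succ a ih =>
    rw [pow_succ, pow_succ, Module.End.mul_apply, Module.End.mul_apply]
    have h1 := ih (T_mem h hx)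
    have h2 := c_pow_mem h a (sub_mem h hx)
    rw [map_sub] at h2
    have h3 : (T ^ a) (T x) - ((c 0) ^ a) (c 0 x) = ((T ^ a) (T x) - ((c 0) ^ a) (T x)) +
      (((c 0) ^ a) (T x) - ((c 0) ^ a) (c 0 x)) := by abel
    rw [h3]
    refine Submodule.add_mem _ (Fil_mono Y (le_of_eq ?_) h1) (Fil_mono Y (le_of_eq ?_) h2)
    · push_cast; ring
    · push_cast; ring

end P_HLS

open P_KER P_DEC P_HLS in
theorem t_HLS : S_HLS := by
  intro K V _ _ _ _ _ Y S n c hY hS hM a
  obtain ⟨pr, hpr⟩ := exists_pr hY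
  refine ⟨?_, ?_, ?_⟩
  · intro x hx
    have hx' : x ∈ Y.eigenspace ((a : ℤ) : K) := by exact_mod_cast hx
    have h1 := deg_pow (hS.2.1 0) a hx'
    have e : (((a : ℤ) + a * -(2 + ((0 : ℕ) : ℤ)) : ℤ) : K) = -(a : K) := by push_cast; ring
    rw [e] at h1
    exact h1
  · -- injectivity
    have key : ∀ x ∈ Y.eigenspace ((a : ℤ) : K), ((c 0) ^ a) x = 0 → x = 0 := by
      intro x hx h0
      have h1 := pow_sub_mem hS a (mem_Fil (le_refl (a : ℤ)) hx)
      rw [h0, sub_zero] at h1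
      have h2 := hM.inj a x (mem_Fil le_rfl hx) (Fil_mono Y (by omega) h1)
      exact hpr.eq_zero (by omega) h2 hx
    intro x hx y hy hxy
    have hx' : x ∈ Y.eigenspace ((a : ℤ) : K) := by exact_mod_cast hx
    have hy' : y ∈ Y.eigenspace ((a : ℤ) : K) := by exact_mod_cast hy
    exact sub_eq_zero.1 (key _ (Submodule.sub_mem _ hx' hy') (by rw [map_sub, hxy, sub_self]))
  · intro y hy
    have e : ((-(a : ℤ) : ℤ) : K) = -(a : K) := by push_cast; rfl
    have hy' : y ∈ Y.eigenspace ((-(a : ℤ) : ℤ) : K) := by rw [e]; exact hy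
    obtain ⟨x, hx, hxy⟩ := hM.surj a y (mem_Fil le_rfl hy')
    have hxa := hpr.mem (a : ℤ) x
    refine ⟨pr a x, by exact_mod_cast hxa, ?_⟩
    have h1 := pow_sub_mem hS a hx
    have h2 := c_pow_mem hS a (hpr.sub_mem hx)
    rw [map_sub] at h2
    have h3 : y - ((c 0) ^ a) (pr a x) ∈ Fil Y (-(a : ℤ) - 1) := by
      have e3 : y - ((c 0) ^ a) (pr a x) = (y - (S ^ a) x) + ((S ^ a) x - ((c 0) ^ a) x) +
        (((c 0) ^ a) x - ((c 0) ^ a) (pr a x)) := by abel
      rw [e3]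
      exact Submodule.add_mem _ (Submodule.add_mem _ hxy (Fil_mono Y (by omega) h1))
        (Fil_mono Y (by omega) h2)
    have h4 := deg_pow (hS.2.1 0) a hxa
    have e4 : ((a : ℤ) + a * -(2 + ((0 : ℕ) : ℤ)) : ℤ) = -(a : ℤ) := by push_cast; ring
    rw [e4] at h4
    have h5 := hpr.eq_zero (by omega) h3 (Submodule.sub_mem _ hy' h4)
    exact (sub_eq_zero.1 h5).symm

open P_KER P_DEC P_HLS in
theorem t_COM : S_COM := by
  intro K V _ _ _ _ _ Y S N d d' n n' c c' hY hS hN hc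
  obtain ⟨pr, hpr⟩ := exists_pr hY
  rw [Commute, SemiconjBy, ← sub_eq_zero]
  refine gr_ext hY fun k x hx => ?_
  rw [LinearMap.sub_apply, Module.End.mul_apply, Module.End.mul_apply]
  have hxk := mem_Fil (le_refl k) hx
  have h1 : S (N x) = N (S x) := congrArg (fun A : Module.End K V => A x) hc.eq
  -- `S (N x) - c 0 (c' 0 x)`
  have h2 : S (N x) - c 0 (c' 0 x) ∈ Fil Y (k - d - d' - 1) := by
    have e : S (N x) - c 0 (c' 0 x) = (S (N x) - c 0 (N x)) + c 0 (N x - c' 0 x) := by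
      rw [map_sub]; abel
    rw [e]
    refine Submodule.add_mem _ (Fil_mono Y (by omega) (sub_mem hS (T_mem hN hxk)))
      (Fil_mono Y (by push_cast; omega) (comp_mem hS 0 (sub_mem hN hxk)))
  have h3 : N (S x) - c' 0 (c 0 x) ∈ Fil Y (k - d - d' - 1) := by
    have e : N (S x) - c' 0 (c 0 x) = (N (S x) - c' 0 (S x)) + c' 0 (S x - c 0 x) := by
      rw [map_sub]; abel
    rw [e]
    refine Submodule.add_mem _ (Fil_mono Y (by omega) (sub_mem hN (T_mem hS hxk)))
      (Fil_mono Y (by push_cast; omega) (comp_mem hN 0 (sub_mem hS hxk)))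
  have h4 : c 0 (c' 0 x) - c' 0 (c 0 x) ∈ Fil Y (k - d - d' - 1) := by
    have e : c 0 (c' 0 x) - c' 0 (c 0 x) = (N (S x) - c' 0 (c 0 x)) - (S (N x) - c 0 (c' 0 x)) := by
      rw [h1]; abel
    rw [e]
    exact Submodule.sub_mem _ h3 h2
  have h5 := deg_eig (hS.2.1 0) (deg_eig (hN.2.1 0) hx)
  have h6 := deg_eig (hN.2.1 0) (deg_eig (hS.2.1 0) hx)
  have e5 : (k + -(d' + ((0 : ℕ) : ℤ)) + -(d + ((0 : ℕ) : ℤ)) : ℤ) = k - d - d' := by
    push_cast; ring
  have e6 : (k + -(d + ((0 : ℕ) : ℤ)) + -(d' + ((0 : ℕ) : ℤ)) : ℤ) = k - d - d' := by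
    push_cast; ring
  rw [e5] at h5
  rw [e6] at h6
  exact hpr.eq_zero (by omega) h4 (Submodule.sub_mem _ h5 h6)

end Pool.Agent.L7h62.ND
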