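import Pool.Agent.L7h62.ND.Stm

set_option autoImplicit false
set_option linter.unusedSectionVars false

namespace Pool.Agent.L7h62.ND

open Module Module.End

namespace P_KER

variable {K V : Type} [Field K] [CharZero K] [AddCommGroup V] [Module K V]

/-- operators of degree `d` shift the eigenspaces -/
theorem deg_eig {E T : Module.End K V} {d : ℤ} (h : Deg E T d) {j : ℤ} {x : V}
    (hx : x ∈ E.eigenspace (j : K)) : T x ∈ E.eigenspace ((j + d : ℤ) : K) := by
  rw [mem_eigenspace_iff] at hx ⊢
  have h1 := congrArg (fun A : Module.End K V => A x) h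
  simp only [LinearMap.sub_apply, Module.End.mul_apply, LinearMap.smul_apply] at h1
  rw [hx, map_smul, sub_eq_iff_eq_add] at h1
  rw [h1, ← add_smul]
  push_cast
  rw [add_comm]

theorem deg_pow {E T : Module.End K V} {d : ℤ} (h : Deg E T d) (n : ℕ) {j : ℤ} {x : V}
    (hx : x ∈ E.eigenspace (j : K)) : (T ^ n) x ∈ E.eigenspace ((j + n * d : ℤ) : K) := by
  induction n with
  | zero => simpa using hx
  | succ n ih =>
    rw [pow_succ', Module.End.mul_apply]
    have := deg_eig h ih
    have e : j + n * d + d = j + ((n + 1 : ℕ) : ℤ) * d := by push_cast; ring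
    rwa [e] at this

theorem gr_ext {E : Module.End K V} (hE : Gr E) {T : Module.End K V}
    (h : ∀ j : ℤ, ∀ x ∈ E.eigenspace (j : K), T x = 0) : T = 0 := by
  have h1 : (⨆ j : ℤ, E.eigenspace (j : K)) ≤ LinearMap.ker T :=
    iSup_le fun j x hx => h j x hx
  rw [hE] at h1
  ext x
  exact h1 (Submodule.mem_top (x := x))

/-- for large `j` the eigenspace is zero -/
theorem exists_bound [FiniteDimensional K V] (E : Module.End K V) :
    ∃ B : ℕ, ∀ j : ℤ, (B : ℤ) < |j| → E.eigenspace (j : K) = ⊥ := by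
  have hfin : {j : ℤ | E.eigenspace (j : K) ≠ ⊥}.Finite :=
    WellFoundedGT.finite_ne_bot_of_iSupIndep
      ((Module.End.eigenspaces_iSupIndep E).comp Int.cast_injective)
  obtain ⟨B, hB⟩ := (hfin.image fun j : ℤ => j.natAbs).bddAbove
  refine ⟨B, fun j hj => ?_⟩
  by_contra hne
  have h1 : j.natAbs ≤ B := hB ⟨j, hne, rfl⟩
  rw [Int.abs_eq_natAbs] at hj
  omega

end P_KER

open P_KER in
theorem t_KER : S_KER := by
  intro K V _ _ _ _ _ E T Z hE hT hHL hZ hc
  obtain ⟨B, hB⟩ := exists_bound E
  have hcomm : ∀ (n : ℕ) (x : V), Z ((T ^ n) x) = (T ^ n) (Z x) := by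
    intro n x
    have := (hc.pow_right n).eq
    exact congrArg (fun A : Module.End K V => A x) this
  -- nonnegative degrees
  have h1 : ∀ n : ℕ, ∀ j : ℕ, B ≤ j + n → ∀ x ∈ E.eigenspace ((j : ℤ) : K), Z x = 0 := by
    intro n
    induction n using Nat.strong_induction_on with
    | _ n ih =>
      intro j hj x hx
      have hZx := deg_eig hZ hx
      by_cases hn : n = 0
      · subst hn
        have h0 : E.eigenspace (((j : ℤ) + 2 : ℤ) : K) = ⊥ := hB _ (by
          rw [abs_of_nonneg (by omega)]; omega)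
        rw [h0, Submodule.mem_bot] at hZx
        exact hZx
      · -- `T ^ (j + 2) x` has degree `- j - 4`
        have h2 := deg_pow hT (j + 2) hx
        have e2 : ((j : ℤ) + ((j + 2 : ℕ) : ℤ) * -2 : ℤ) = -((j + 4 : ℕ) : ℤ) := by
          push_cast; ring
        rw [e2] at h2
        push_cast at h2
        obtain ⟨y, hy, hyx⟩ := (hHL (j + 4)).surjOn (by push_cast; exact h2)
        have hy' : y ∈ E.eigenspace (((j + 4 : ℕ) : ℤ) : K) := by exact_mod_cast hy
        have hZy : Z y = 0 := by
          by_cases hn4 : 4 ≤ n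
          · exact ih (n - 4) (by omega) (j + 4) (by omega) y hy'
          · exact ih 0 (by omega) (j + 4) (by omega) y hy'
        have h3 : (T ^ (j + 2)) (Z x) = 0 := by
          rw [← hcomm, ← hyx, hcomm, hZy, map_zero]
        have h4 : Z x ∈ (E.eigenspace (((j + 2 : ℕ)) : K) : Set V) := by
          have e4 : (((j : ℤ) + 2 : ℤ) : K) = ((j + 2 : ℕ) : K) := by push_cast; ring
          rw [e4] at hZx
          exact hZx
        exact (hHL (j + 2)).injOn h4 (Submodule.zero_mem _) (by rw [h3, map_zero])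
  have h1' : ∀ j : ℕ, ∀ x ∈ E.eigenspace ((j : ℤ) : K), Z x = 0 := fun j x hx =>
    h1 B j (by omega) x hx
  refine gr_ext hE fun j x hx => ?_
  by_cases hj : 0 ≤ j
  · obtain ⟨a, rfl⟩ := Int.eq_ofNat_of_zero_le hj
    exact h1' a x hx
  · obtain ⟨a, ha⟩ := Int.eq_ofNat_of_zero_le (show 0 ≤ -j by omega)
    have hja : j = -(a : ℤ) := by omega
    subst hja
    push_cast at hx
    obtain ⟨y, hy, hyx⟩ := (hHL a).surjOn hx
    rw [← hyx, hcomm, h1' a y (by exact_mod_cast hy), map_zero]

end Pool.Agent.L7h62.ND
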