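import Pool.Agent.L7h62.ND.Grs
import Pool.Agent.N184.HK.P_SL2A
import Pool.Agent.N184.HK.P_SL2B

set_option autoImplicit false
set_option linter.unusedSectionVars false

namespace Pool.Agent.L7h62.ND

open Module Module.End

namespace P_SUM

variable {K V : Type} [Field K] [CharZero K] [AddCommGroup V] [Module K V]
  [FiniteDimensional K V]

/-- eigenspaces of a diagonalizable operator are the generalized eigenspaces -/
theorem max_eq [IsAlgClosed K] {D : Module.End K V} (hD : Gr D) (e : K) :
    D.maxGenEigenspace e = D.eigenspace e := by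
  obtain ⟨ι, _, b, w, hb⟩ := Pool.Agent.N184.HK.P_SL2A.eig_basis D hD
  refine le_antisymm ?_ (D.genEigenspace_le_maximal e 1)
  intro x hx
  rw [mem_maxGenEigenspace] at hx
  obtain ⟨k, hk⟩ := hx
  have h1 : ∀ (k : ℕ) (x : V) (i : ι), b.repr (((D - e • (1 : Module.End K V)) ^ k) x) i =
      ((w i : K) - e) ^ k * b.repr x i := by
    intro k
    induction k with
    | zero => intro x i; simp
    | succ k ih =>
      intro x i
      rw [pow_succ, Module.End.mul_apply, ih]
      have h2 : b.repr ((D - e • (1 : Module.End K V)) x) i = ((w i : K) - e) * b.repr x i := by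
        conv_lhs => rw [← b.sum_repr x]
        rw [map_sum, map_sum, Finset.sum_apply']
        simp only [map_smul, LinearMap.sub_apply, LinearMap.smul_apply, Module.End.one_apply, hb,
          map_sub, Finsupp.smul_apply, Finsupp.sub_apply, Basis.repr_self, smul_eq_mul]
        rw [Finset.sum_eq_single i]
        · simp; ring
        · intro j _ hj
          simp [Finsupp.single_apply, hj]
        · intro h; exact absurd (Finset.mem_univ _) h
      rw [h2, pow_succ]
      ring
  rw [mem_eigenspace_iff]
  apply b.repr.injective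
  ext i
  have h3 := h1 k x i
  rw [hk, map_zero, Finsupp.zero_apply] at h3
  have h4 : b.repr (D x) i = (w i : K) * b.repr x i := by
    have := h1 1 x i
    rw [pow_one, pow_one] at this
    simp only [LinearMap.sub_apply, LinearMap.smul_apply, Module.End.one_apply, map_sub, map_smul,
      Finsupp.sub_apply, Finsupp.smul_apply, smul_eq_mul] at this
    linear_combination this
  rw [h4, map_smul, Finsupp.smul_apply, smul_eq_mul]
  rcases mul_eq_zero.1 h3.symm with h5 | h5
  · have h6 : (w i : K) - e = 0 := by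
      by_contra hne
      exact pow_ne_zero k hne h5
    rw [sub_eq_zero] at h6
    rw [h6]
  · rw [h5, mul_zero, mul_zero]

theorem exists_X {Y S : Module.End K V} (hY : Gr Y) (hS : Deg Y S (-2)) (h : HL Y S) :
    ∃ X : Module.End K V, Y * X - X * Y = (2 : K) • X ∧ X * S - S * X = Y := by
  obtain ⟨ι, _, b, w, hb⟩ := Pool.Agent.N184.HK.P_SL2A.eig_basis Y hY
  refine Pool.Agent.N184.HK.P_SL2A.exists_X hb ?_ h
  have := hS
  rw [Deg] at this
  rw [this]
  push_cast
  rfl

end P_SUM

open P_SUM in
theorem s_SUM (hKER : S_KER) (hGRS : S_GRS) : S_SUM := by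
  intro K V _ _ _ _ _ _ D Y S N hD hY hc hYS hYN hDS hDN hSN h1 h2
  have hE : Gr (D - Y) := hGRS K V D Y hD hY hc
  have hES : Deg (D - Y) N (-2) := by
    rw [Deg] at hYN hDN ⊢
    rw [sub_mul, mul_sub, show D * N - Y * N - (N * D - N * Y) = (D * N - N * D) -
      (Y * N - N * Y) by abel, hYN, hDN]
    simp
  have hES0 : Commute (D - Y) S := by
    rw [Deg] at hYS hDS
    rw [Commute, SemiconjBy, ← sub_eq_zero, sub_mul, mul_sub,
      show D * S - Y * S - (S * D - S * Y) = (D * S - S * D) - (Y * S - S * Y) by abel, hYS, hDS,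
      sub_self]
  have hYN0 : Commute Y N := by
    rw [Deg] at hYN
    rw [Commute, SemiconjBy, ← sub_eq_zero, hYN]
    simp
  have hYE : Commute Y (D - Y) := hc.sub_right (Commute.refl Y)
  obtain ⟨X₁, a1, a2⟩ := exists_X hY hYS h1
  obtain ⟨X₂, b1, b2⟩ := exists_X hE hES h2
  obtain ⟨E, hEdef⟩ : ∃ E, E = D - Y := ⟨_, rfl⟩
  rw [← hEdef] at hE hES hES0 hYE b1 b2 h2
  have e1 := hSN.eq
  have e2 := hES0.eq
  have e3 := hYN0.eq
  have e4 := hYE.eq
  -- a bracket which commutes with `T` and has degree two vanishes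
  have key : ∀ (A T X C : Module.End K V), Gr A → Deg A T (-2) → HL A T →
      A * X - X * A = (2 : K) • X → X * T - T * X = A → C * T = T * C → C * A = A * C →
      C * X = X * C := by
    intro A T X C hA hAT hHL hx hxt hct hca
    have h3 : C * X - X * C = 0 := by
      refine hKER K V A T (C * X - X * C) hA hAT hHL ?_ ?_
      · rw [Deg]
        push_cast
        have h5 : A * (C * X - X * C) - (C * X - X * C) * A =
            C * (A * X - X * A) - (A * X - X * A) * C := by
          have : A * (C * X - X * C) - (C * X - X * C) * A - (C * (A * X - X * A) - (A * X - X * A) * C)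
              = -(C * A - A * C) * X + X * (C * A - A * C) := by noncomm_ring
          rw [hca, sub_self] at this
          rw [← sub_eq_zero, this]
          simp
        rw [h5, hx]
        simp only [mul_smul_comm, smul_mul_assoc, smul_sub]
      · have h6 : (C * X - X * C) * T - T * (C * X - X * C) =
            C * (X * T - T * X) - (X * T - T * X) * C + (C * T - T * C) * X - X * (C * T - T * C) := by
          noncomm_ring
        rw [hct, sub_self, hxt, hca] at h6
        simp only [sub_self, zero_mul, mul_zero, add_zero, sub_zero] at h6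
        rw [Commute, SemiconjBy, ← sub_eq_zero, h6]
    exact sub_eq_zero.1 h3
  have k1 : E * X₁ = X₁ * E := key Y S X₁ E hY hYS h1 a1 a2 e2 e4.symm
  have k2 : N * X₁ = X₁ * N := key Y S X₁ N hY hYS h1 a1 a2 e1.symm e3.symm
  have k3 : Y * X₂ = X₂ * Y := key E N X₂ Y hE hES h2 b1 b2 e3 e4
  have k4 : S * X₂ = X₂ * S := key E N X₂ S hE hES h2 b1 b2 e1 e2.symm
  have hDE : D = Y + E := by rw [hEdef]; abel
  have t1 : D * (X₁ + X₂) - (X₁ + X₂) * D = (2 : K) • (X₁ + X₂) := by
    rw [hDE, smul_add, ← a1, ← b1]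
    have : (Y + E) * (X₁ + X₂) - (X₁ + X₂) * (Y + E) = (Y * X₁ - X₁ * Y) + (E * X₂ - X₂ * E) +
      (E * X₁ - X₁ * E) + (Y * X₂ - X₂ * Y) := by noncomm_ring
    rw [this, k1, k3]
    simp
  have t2 : D * (S + N) - (S + N) * D = -(2 : K) • (S + N) := by
    have u1 := hDS
    have u2 := hDN
    rw [Deg] at u1 u2
    push_cast at u1 u2
    rw [smul_add, ← u1, ← u2]
    noncomm_ring
  have t3 : (X₁ + X₂) * (S + N) - (S + N) * (X₁ + X₂) = D := by
    have : (X₁ + X₂) * (S + N) - (S + N) * (X₁ + X₂) = (X₁ * S - S * X₁) + (X₂ * N - N * X₂) -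
      (N * X₁ - X₁ * N) - (S * X₂ - X₂ * S) := by noncomm_ring
    rw [this, a2, b2, k2, k4, hDE]
    simp
  have h7 := (Pool.Agent.N184.HK.t_sl2b K V (X₁ + X₂) D (S + N) t1 t2 t3).2
  intro j
  have h8 := h7 j
  rw [max_eq hD, max_eq hD] at h8
  exact h8

theorem t_SUM : S_SUM := s_SUM t_KER t_GRS

end Pool.Agent.L7h62.ND
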