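import Pool.Agent.L7h62.ND.Grd
import Pool.Agent.L7h62.ND.Hln
import Pool.Agent.L7h62.ND.Exp
import Pool.Agent.L7h62.ND.Cmp
import Pool.Agent.L7h62.ND.Dop
import Pool.Agent.L7h62.ND.Sum
import Pool.Agent.L7h53.ND.Pol
import Pool.Agent.L7h53.ND.Nil
import Pool.Agent.L7h53.ND.Sca
import Pool.Agent.L7h53.ND.Dgb
import Pool.Agent.N184.HK.P_TOM

/-!
# Project ND: assembly
-/

set_option autoImplicit false
set_option linter.unusedSectionVars false

namespace Pool.Agent.L7h62.ND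

open Module Module.End Pool.Agent.Y143 Pool.Agent.N184.HK Pool.Agent.N184.HK.P_FRM

namespace P_MAIN

variable {Ω V : Type} [Field Ω] [CharZero Ω] [IsAlgClosed Ω] [AddCommGroup V] [Module Ω V]
  [FiniteDimensional Ω V] {q r : ℕ}

theorem Sd_smul (F : Family Ω V q r) (z : Ω) (y : Fin r → Ω) : F.Sd (z • y) = z • F.Sd y := by
  simp only [Family.Sd, Finset.smul_sum, smul_smul, Pi.smul_apply, smul_eq_mul]

theorem Sd_rel (F : Family Ω V q r) (y : Fin r → Ω) (x : V) :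
    F.Sd y (F.Φ x) = (q : Ω) • F.Φ (F.Sd y x) := by
  simp only [Family.Sd, LinearMap.sum_apply, LinearMap.smul_apply, F.S_Φ, map_sum, map_smul,
    Finset.smul_sum]
  exact Finset.sum_congr rfl fun i _ => smul_comm _ _ _

theorem N_Sd (F : Family Ω V q r) (y : Fin r → Ω) : Commute F.N (F.Sd y) :=
  Commute.sum_right _ _ _ fun i _ => (F.N_S i).smul_right _

theorem Sd_Sd (F : Family Ω V q r) (y z : Fin r → Ω) : Commute (F.Sd y) (F.Sd z) :=
  Commute.sum_left _ _ _ fun i _ => Commute.sum_right _ _ _ fun j _ =>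
    ((F.S_S i j).smul_left _).smul_right _

theorem mono_rel (F : Family Ω V q r) (e : Fin r → Ω) (x : V) :
    F.mono e (F.Φ x) = (q : Ω) • F.Φ (F.mono e x) := by
  rw [Family.mono, LinearMap.add_apply, F.N_Φ, Sd_rel, LinearMap.add_apply, map_add, smul_add]

/-- mw purity and the hard Lefschetz property -/
theorem pure_iff (hq : 1 < q) {m : ℤ} {Φ N D : Module.End Ω V}
    (hΦ : ∀ α, Φ.HasEigenvalue α → ∃ w : ℤ, IsWeilNumber q w α)
    (hN : ∀ x, N (Φ x) = (q : Ω) • Φ (N x))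
    (hD : ∀ j : ℤ, D.eigenspace (j : Ω) = WS q Φ (m + j)) :
    IsMWPure q m Φ N ↔ HL D N := by
  have hroot : ∀ e ∈ Φ.charpoly.roots, ∃ w : ℤ, IsWeilNumber q w e := by
    intro e he
    refine hΦ e ?_
    rw [Polynomial.mem_roots (LinearMap.charpoly_monic Φ).ne_zero,
      ← Module.End.hasEigenvalue_iff_isRoot_charpoly] at he
    exact he
  have h1 : ∀ j : ℕ, D.eigenspace (j : Ω) = WS q Φ (m + j) := fun j => by
    have := hD j
    rwa [Int.cast_natCast] at this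
  have h2 : ∀ j : ℕ, D.eigenspace (-(j : Ω)) = WS q Φ (m - j) := fun j => by
    have := hD (-(j : ℤ))
    rw [Int.cast_neg, Int.cast_natCast] at this
    rw [this, sub_eq_add_neg]
  constructor
  · intro h j
    rw [h1, h2]
    exact t_frm Ω V q hq m Φ N hroot hN h j
  · intro h
    refine t_tom Ω V q hq m Φ N hroot hN fun j => ?_
    have := h j
    rwa [h1, h2] at this

theorem stable_of_computes {R : Row Ω q} {Φ N : Module.End Ω V} {U' U : Submodule Ω V}
    (h : R.Computes Φ N U' U) : (∀ x ∈ U', Φ x ∈ U') ∧ ∀ x ∈ U', N x ∈ U' := by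
  obtain ⟨θ, _, _, hF, hN⟩ := h
  constructor
  · intro x hx
    have h1 := hF 0 0 x (by simp) (by
      rw [map_zero, Submodule.mkQ_apply, eq_comm, Submodule.Quotient.mk_eq_zero]
      exact hx)
    rw [map_zero, Submodule.mkQ_apply, eq_comm, Submodule.Quotient.mk_eq_zero] at h1
    exact h1
  · intro x hx
    have h1 := hN 0 0 x (by simp) (by
      rw [map_zero, Submodule.mkQ_apply, eq_comm, Submodule.Quotient.mk_eq_zero]
      exact hx)
    rw [map_zero, Submodule.mkQ_apply, eq_comm, Submodule.Quotient.mk_eq_zero] at h1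
    exact h1

/-- the heart: good strata give the hard Lefschetz property in a suitable direction -/
theorem good_direction (hq : 1 < q) {m : ℤ} {D : Module.End Ω V} (F : Family Ω V q r)
    (hDG : Gr D) (hD : ∀ j : ℤ, D.eigenspace (j : Ω) = WS q F.Φ (m + j))
    (hDT : ∀ T : Module.End Ω V, (∀ x, T (F.Φ x) = (q : Ω) • F.Φ (T x)) → Deg D T (-2))
    (hDU : ∀ U : Submodule Ω V, (∀ x ∈ U, F.Φ x ∈ U) → ∀ x ∈ U, D x ∈ U)
    (y : Fin r → Ω) (W : ℤ → Submodule Ω V) (hW : IsMonodromyFiltration (F.Sd y) W)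
    (hR : ∀ k : ℤ, ∃ R : Row Ω q, R.Pure (m + k) ∧ R.Computes F.Φ F.N (W (k - 1)) (W k)) :
    ∃ z : Ω, HL D (F.mono (z • y)) := by
  have hst : ∀ k, (∀ x ∈ W k, F.Φ x ∈ W k) ∧ ∀ x ∈ W k, F.N x ∈ W k := by
    intro k
    obtain ⟨R, _, hR⟩ := hR (k + 1)
    have := stable_of_computes hR
    rwa [add_sub_cancel_right] at this
  obtain ⟨Y, hY, hYD, hWY⟩ := t_GRD Ω V D hDG W hW.mono hW.bot hW.top
    fun k => hDU _ (hst k).1
  have hWF : W = Fil Y := funext hWY
  subst hWF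
  obtain ⟨n, c, hc, hcD⟩ := t_DEC Ω V Y (F.Sd y) 2 hY hW.map
  obtain ⟨n', c', hc', hcD'⟩ := t_DEC Ω V Y F.N 0 hY fun k x hx => by
    rw [sub_zero]; exact (hst k).2 x hx
  have hdc : ∀ s, Deg D (c s) (-2) := hcD D (-2) hYD.symm (hDT _ (Sd_rel F y))
  have hdc' : ∀ s, Deg D (c' s) (-2) := hcD' D (-2) hYD.symm (hDT _ F.N_Φ)
  have hcomm : Commute (c 0) (c' 0) := t_COM Ω V Y (F.Sd y) F.N 2 0 n n' c c' hY hc hc'
    (N_Sd F y).symm
  have h1 : HL Y (c 0) := t_HLS Ω V Y (F.Sd y) n c hY hc hW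
  have hGr : GrL D Y F.N := by
    intro k b
    obtain ⟨R, hRp, hRc⟩ := hR k
    have h2 := t_CMP Ω V q hq (m + k) F.Φ F.N (Fil Y (k - 1)) (Fil Y k) R (hW.mono (by omega))
      (hst k).1 hRc (t_EXA Ω q hq (m + k) R hRp) b
    rw [hD, hD, ← add_assoc, ← add_sub_assoc]
    exact h2
  have h2 : HL (D - Y) (c' 0) := t_HLN Ω V D Y F.N n' c' hDG hY hYD hc' hdc' hGr
  have hd0 : Deg Y (c 0) (-2) := by
    have := hc.2.1 0
    simpa using this
  have hd0' : Deg Y (c' 0) 0 := by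
    have := hc'.2.1 0
    simpa using this
  have h3 : HL D (c 0 + c' 0) := t_SUM Ω V D Y (c 0) (c' 0) hDG hY hYD hd0 hd0' (hdc 0) (hdc' 0)
    hcomm h1 h2
  obtain ⟨z, _, hz⟩ := Pool.Agent.L7h53.ND.t_SCA Pool.Agent.L7h53.ND.t_POL
    Pool.Agent.L7h53.ND.t_CNJ Ω V D Y (F.Sd y) F.N n n' c c' hDG hY hYD hc hc' hdc hdc' h3
  refine ⟨z ^ 2, ?_⟩
  rw [Family.mono, Sd_smul]
  exact hz

end P_MAIN

open P_MAIN P_KER in
theorem main : ∀ (Ω V : Type) [Field Ω] [CharZero Ω] [IsAlgClosed Ω] [AddCommGroup V]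
    [Module Ω V] [FiniteDimensional Ω V] (q : ℕ), 1 < q → ∀ (m : ℤ) (r c : ℕ)
    (F : Family Ω V q r),
    (∀ α, F.Φ.HasEigenvalue α → ∃ w : ℤ, IsWeilNumber q w α ∧ w ≤ m + c) →
    ∃ P : MvPolynomial (Fin r) Ω, 2 * P.totalDegree ≤ c * finrank Ω V ∧
      (∀ e x : Fin r → Ω, IsMWPure q m (F.frob x) (F.mono e) ↔ MvPolynomial.eval e P ≠ 0) ∧
      ∀ (y : Fin r → Ω) (W : ℤ → Submodule Ω V), IsMonodromyFiltration (F.Sd y) W →
        (∀ k : ℤ, ∃ R : Row Ω q, R.Pure (m + k) ∧ R.Computes F.Φ F.N (W (k - 1)) (W k)) →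
        {z : Ω | MvPolynomial.eval (z • y) P = 0}.Finite ∧
          2 * {z : Ω | MvPolynomial.eval (z • y) P = 0}.ncard ≤ c * finrank Ω V := by
  intro Ω V _ _ _ _ _ _ q hq m r c F hF
  have hF' : ∀ α, F.Φ.HasEigenvalue α → ∃ w : ℤ, IsWeilNumber q w α := fun α h => by
    obtain ⟨w, hw, _⟩ := hF α h
    exact ⟨w, hw⟩
  obtain ⟨D, hDG, hD, hDT, hDU⟩ := t_DOP Ω V q hq m F.Φ hF'
  obtain ⟨B, hB⟩ := exists_bound D
  -- the eigenspaces beyond `c` vanish
  have hc : ∀ j : ℤ, (c : ℤ) < j → D.eigenspace (j : Ω) = ⊥ := by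
    intro j hj
    rw [hD, WS, eq_bot_iff]
    refine iSup₂_le fun e he => ?_
    by_contra hne
    have hne' : F.Φ.maxGenEigenspace e ≠ ⊥ := fun h => hne (by rw [h])
    have h1 : F.Φ.HasEigenvalue e := by
      have h' : F.Φ.HasUnifEigenvalue e ⊤ := hne'
      exact h'.lt (by simp)
    obtain ⟨w, hw, hwc⟩ := hF e h1
    have := weight_unique hq hw he
    omega
  have hmap : ∀ j : ℕ, ∀ e : Fin r → Ω, ∀ x ∈ D.eigenspace (j : Ω),
      ((F.N + ∑ i, e i • F.S i) ^ j) x ∈ D.eigenspace (-(j : Ω)) := by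
    intro j e x hx
    have h1 : Deg D (F.mono e) (-2) := hDT _ (mono_rel F e)
    have hx' : x ∈ D.eigenspace ((j : ℤ) : Ω) := by exact_mod_cast hx
    have h2 := deg_pow h1 j hx'
    have e2 : (((j : ℤ) + j * -2 : ℤ) : Ω) = -(j : Ω) := by push_cast; ring
    rw [e2] at h2
    exact h2
  obtain ⟨P, hPdeg, hP⟩ := Pool.Agent.L7h53.ND.t_POL Ω V r F.N F.S (Finset.Icc 1 (c + B))
    (fun j => D.eigenspace (j : Ω)) (fun j => D.eigenspace (-(j : Ω))) fun j _ => hmap j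
  have hHL : ∀ e : Fin r → Ω, HL D (F.mono e) ↔ MvPolynomial.eval e P ≠ 0 := by
    intro e
    rw [hP]
    refine ⟨fun h j _ => h j, fun h j => ?_⟩
    by_cases hj0 : j = 0
    · subst hj0
      simp only [pow_zero, Nat.cast_zero, neg_zero]
      exact ⟨fun x hx => hx, fun x _ y _ hxy => hxy, fun x hx => ⟨x, hx, rfl⟩⟩
    · by_cases hj : j ≤ c + B
      · exact h j (Finset.mem_Icc.2 ⟨by omega, hj⟩)
      · have h1 : D.eigenspace (j : Ω) = ⊥ := by
          have := hc j (by omega)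
          rwa [Int.cast_natCast] at this
        have h2 : D.eigenspace (-(j : Ω)) = ⊥ := by
          have := hB (-(j : ℤ)) (by rw [abs_neg, abs_of_nonneg (by omega)]; omega)
          rwa [Int.cast_neg, Int.cast_natCast] at this
        rw [h1, h2]
        refine ⟨fun x hx => ?_, fun x hx y hy _ => ?_, fun x hx => ⟨0, zero_mem _, ?_⟩⟩
        · have : x = 0 := hx
          rw [this, map_zero]
          exact zero_mem _
        · have h3 : x = 0 := hx
          have h4 : y = 0 := hy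
          rw [h3, h4]
        · have h3 : x = 0 := hx
          rw [h3, map_zero]
  have hdeg : 2 * P.totalDegree ≤ c * finrank Ω V := by
    by_cases hP0 : P = 0
    · rw [hP0, MvPolynomial.totalDegree_zero]
      omega
    · obtain ⟨e, he⟩ : ∃ e, MvPolynomial.eval e P ≠ 0 := by
        by_contra hcon
        push Not at hcon
        exact hP0 (MvPolynomial.funext fun e => by rw [hcon e, map_zero])
      have h1 := Pool.Agent.L7h53.ND.t_DGB Ω V D (F.mono e) c ((hHL e).2 he)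
      have h2 : ∑ j ∈ Finset.Icc 1 (c + B), j * finrank Ω (D.eigenspace (j : Ω)) =
          ∑ j ∈ Finset.Icc 1 c, j * finrank Ω (D.eigenspace (j : Ω)) := by
        symm
        refine Finset.sum_subset (Finset.Icc_subset_Icc_right (by omega)) fun j hj hj' => ?_
        have h3 : D.eigenspace (j : Ω) = ⊥ := by
          rw [Finset.mem_Icc] at hj hj'
          have := hc j (by omega)
          rwa [Int.cast_natCast] at this
        rw [h3, finrank_bot, mul_zero]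
      rw [h2] at hPdeg
      omega
  refine ⟨P, hdeg, fun e x => ?_, fun y W hW hR => ?_⟩
  · rw [← hHL e, ← pure_iff hq hF' (mono_rel F e) hD, Family.frob]
    have hnil := t_NIL Ω V D (F.Sd x) hDG (hDT _ (Sd_rel F x))
    refine t_EXP Ω V q hq m F.Φ (F.Sd x) (F.mono e) (Sd_rel F x) ?_ hnil
    exact ((N_Sd F x).symm).add_right (Sd_Sd F x e)
  · obtain ⟨z, hz⟩ := good_direction hq F hDG hD hDT hDU y W hW hR
    obtain ⟨h1, h2⟩ := Pool.Agent.L7h53.ND.t_RAY Ω r P y ⟨z, (hHL _).1 hz⟩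
    exact ⟨h1, by omega⟩

end Pool.Agent.L7h62.ND
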