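import Pool.Agent.L7h62.ND.Main

/-!
# Project ND: the statement in terms of bundled modules
-/

set_option autoImplicit false
set_option linter.unusedSectionVars false

namespace Pool.Agent.L7h62.ND

open Module Pool.Agent.Y143

/-- A finite-dimensional vector space `H` with a geometric Frobenius `F` and the logarithm `N` of the
monodromy of the field (with residue field of `q` elements). -/
structure WD (Ω : Type) [Field Ω] (q : ℕ) where
  H : Type
  [g : AddCommGroup H]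
  [m : Module Ω H]
  [fin : FiniteDimensional Ω H]
  F : Module.End Ω H
  N : Module.End Ω H
  rel : ∀ x, N (F x) = (q : Ω) • F (N x)

attribute [instance] WD.g WD.m WD.fin

/-- A linear map compatible with Frobenius and monodromy. -/
structure WD.Hom {Ω : Type} [Field Ω] {q : ℕ} (A B : WD Ω q) where
  f : A.H →ₗ[Ω] B.H
  F : ∀ x, f (A.F x) = B.F (f x)
  N : ∀ x, f (A.N x) = B.N (f x)

/-- Three consecutive terms `A → B → C` of the first page of the weight spectral sequence of the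
degenerate fibre. -/
structure Terms (Ω : Type) [Field Ω] (q : ℕ) where
  A : WD Ω q
  B : WD Ω q
  C : WD Ω q
  f : A.Hom B
  g : B.Hom C
  zero : ∀ x, g.f (f.f x) = 0

section
variable {Ω V : Type} [Field Ω] [AddCommGroup V] [Module Ω V] {q r : ℕ}

/-- `A` is mw pure of weight `w`. -/
def WD.Pure [CharZero Ω] (A : WD Ω q) (w : ℤ) : Prop := IsMWPure q w A.F A.N

/-- The three terms are mw pure of weight `w`. -/
def Terms.Pure [CharZero Ω] (R : Terms Ω q) (w : ℤ) : Prop :=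
  R.A.Pure w ∧ R.B.Pure w ∧ R.C.Pure w

/-- The linear map `l` induces an isomorphism of `ker g / im f` with `U / U'`. -/
def InducesIso {A B C : Type} [AddCommGroup A] [Module Ω A] [AddCommGroup B] [Module Ω B]
    [AddCommGroup C] [Module Ω C] (f : A →ₗ[Ω] B) (g : B →ₗ[Ω] C) (l : B →ₗ[Ω] V)
    (U' U : Submodule Ω V) : Prop :=
  (∀ x, g x = 0 → l x ∈ U) ∧ (∀ v ∈ U, ∃ x, g x = 0 ∧ v - l x ∈ U') ∧
    ∀ x, g x = 0 → (l x ∈ U' ↔ ∃ a, f a = x)

/-- On `ker g`, the map `l` is compatible with `G` and `G'`, modulo `U'`. -/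
def CompatibleMod {B C : Type} [AddCommGroup B] [Module Ω B] [AddCommGroup C] [Module Ω C]
    (g : B →ₗ[Ω] C) (l : B →ₗ[Ω] V) (G : Module.End Ω B) (G' : Module.End Ω V)
    (U' : Submodule Ω V) : Prop :=
  ∀ x, g x = 0 → l (G x) - G' (l x) ∈ U'

/-- The middle cohomology of the three terms is `U / U'`, compatibly with Frobenius and
monodromy. -/
def Terms.Computes (R : Terms Ω q) (Φ N : Module.End Ω V) (U' U : Submodule Ω V) : Prop :=
  ∃ l : R.B.H →ₗ[Ω] V, InducesIso R.f.f R.g.f l U' U ∧ CompatibleMod R.g.f l R.B.F Φ U' ∧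
    CompatibleMod R.g.f l R.B.N N U'

/-- The strata of the degenerate fibre in the direction `y` satisfy the monodromy–weight conjecture:
the monodromy filtration `W` of `∑ y i * S i` is stable under Frobenius and monodromy, and the graded
piece `W k / W (k - 1)` is the middle cohomology of three terms which are mw pure of weight
`m + k`. -/
def GoodStrata [CharZero Ω] (F : Family Ω V q r) (m : ℤ) (y : Fin r → Ω) : Prop :=
  ∃ W : ℤ → Submodule Ω V, IsMonodromyFiltration (F.Sd y) W ∧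
    (∀ k, ∀ x ∈ W k, F.Φ x ∈ W k ∧ F.N x ∈ W k) ∧
    ∀ k : ℤ, ∃ R : Terms Ω q, R.Pure (m + k) ∧ R.Computes F.Φ F.N (W (k - 1)) (W k)

/-- The weights of the Frobenius on `V` are integers `≤ m + c`. -/
def WeightsAtMost [CharZero Ω] (F : Family Ω V q r) (m : ℤ) (c : ℕ) : Prop :=
  ∀ α, F.Φ.HasEigenvalue α → ∃ w : ℤ, IsWeilNumber q w α ∧ w ≤ m + c

/-- For all valuations `e` and all Kummer classes `x`: the fibre satisfies the monodromy–weight
conjecture if and only if `P(e)` is not zero. -/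
def Detects [CharZero Ω] (F : Family Ω V q r) (m : ℤ) (P : MvPolynomial (Fin r) Ω) : Prop :=
  ∀ e x : Fin r → Ω, IsMWPure q m (F.frob x) (F.mono e) ↔ MvPolynomial.eval e P ≠ 0

/-- the row of three terms -/
def Terms.row (R : Terms Ω q) : Row Ω q where
  A := R.A.H
  B := R.B.H
  C := R.C.H
  FA := R.A.F
  NA := R.A.N
  FB := R.B.F
  NB := R.B.N
  FC := R.C.F
  NC := R.C.N
  relA := R.A.rel
  relB := R.B.rel
  relC := R.C.rel
  f := R.f.f
  g := R.g.f
  gf := R.zero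
  f_F := R.f.F
  f_N := R.f.N
  g_F := R.g.F
  g_N := R.g.N

end

theorem row_computes {Ω V : Type} [Field Ω] [AddCommGroup V] [Module Ω V] {q : ℕ}
    {R : Row Ω q} {Φ N : Module.End Ω V} {U' U : Submodule Ω V} (l : R.B →ₗ[Ω] V)
    (h1 : ∀ x, R.g x = 0 → l x ∈ U) (h2 : ∀ v ∈ U, ∃ x, R.g x = 0 ∧ v - l x ∈ U')
    (h3 : ∀ x, R.g x = 0 → (l x ∈ U' ↔ ∃ a, R.f a = x))
    (h4 : ∀ x, R.g x = 0 → l (R.FB x) - Φ (l x) ∈ U' ∧ l (R.NB x) - N (l x) ∈ U')
    (hΦ : ∀ x ∈ U', Φ x ∈ U') (hN : ∀ x ∈ U', N x ∈ U') : R.Computes Φ N U' U := by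
  have hmk : ∀ {x : V}, U'.mkQ x = 0 ↔ x ∈ U' := fun {x} => by
    rw [Submodule.mkQ_apply, Submodule.Quotient.mk_eq_zero]
  have hmk' : ∀ {x y : V}, U'.mkQ x = U'.mkQ y ↔ x - y ∈ U' := fun {x y} => by
    rw [← hmk, map_sub, sub_eq_zero]
  obtain ⟨θ, hθ⟩ : ∃ θ : LinearMap.ker R.g →ₗ[Ω] V ⧸ U', ∀ x, θ x = U'.mkQ (l x) :=
    ⟨U'.mkQ ∘ₗ l ∘ₗ (LinearMap.ker R.g).subtype, fun x => rfl⟩
  refine ⟨θ, ?_, ?_, ?_, ?_⟩
  · ext t
    constructor
    · rintro ⟨x, rfl⟩
      exact ⟨l x, h1 x x.2, (hθ x).symm⟩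
    · rintro ⟨v, hv, rfl⟩
      obtain ⟨x, hx, hxv⟩ := h2 v hv
      exact ⟨⟨x, hx⟩, (hθ _).trans ((hmk').2 hxv).symm⟩
  · intro x
    rw [hθ x, hmk, h3 x x.2]
    rfl
  · intro x y v hy hx
    rw [hθ] at hx ⊢
    rw [hy]
    have e1 := (hmk').1 hx
    have e2 := hΦ _ e1
    have e3 := (h4 x x.2).1
    refine (hmk').2 ?_
    have e4 : l (R.FB x) - Φ v = (l (R.FB x) - Φ (l x)) + Φ (l x - v) := by
      rw [map_sub]
      abel
    rw [e4]
    exact Submodule.add_mem _ e3 e2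
  · intro x y v hy hx
    rw [hθ] at hx ⊢
    rw [hy]
    have e1 := (hmk').1 hx
    have e2 := hN _ e1
    have e3 := (h4 x x.2).2
    refine (hmk').2 ?_
    have e4 : l (R.NB x) - N v = (l (R.NB x) - N (l x)) + N (l x - v) := by
      rw [map_sub]
      abel
    rw [e4]
    exact Submodule.add_mem _ e3 e2

theorem main' : ∀ (Ω V : Type) [Field Ω] [CharZero Ω] [IsAlgClosed Ω] [AddCommGroup V]
    [Module Ω V] [FiniteDimensional Ω V] (q : ℕ), 1 < q → ∀ (m : ℤ) (r c : ℕ)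
    (F : Family Ω V q r), WeightsAtMost F m c →
    ∃ P : MvPolynomial (Fin r) Ω, 2 * P.totalDegree ≤ c * finrank Ω V ∧ Detects F m P ∧
      ∀ y : Fin r → Ω, GoodStrata F m y →
        {z : Ω | MvPolynomial.eval (z • y) P = 0}.Finite ∧
          2 * {z : Ω | MvPolynomial.eval (z • y) P = 0}.ncard ≤ c * finrank Ω V := by
  intro Ω V _ _ _ _ _ _ q hq m r c F hF
  obtain ⟨P, h1, h2, h3⟩ := main Ω V q hq m r c F hF
  refine ⟨P, h1, h2, fun y hy => ?_⟩
  obtain ⟨W, hW, hst, hR⟩ := hy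
  refine h3 y W hW fun k => ?_
  obtain ⟨R, hp, hc⟩ := hR k
  obtain ⟨l, ⟨e1, e2, e3⟩, e4, e5⟩ := hc
  exact ⟨R.row, hp, row_computes (R := R.row) l e1 e2 e3 (fun x hx => ⟨e4 x hx, e5 x hx⟩)
    (fun x hx => (hst _ x hx).1)
    fun x hx => (hst _ x hx).2⟩

end Pool.Agent.L7h62.ND
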